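import Pool.Agent.helper22.FI.SpecA

set_option autoImplicit false

namespace Pool.Agent.FI

open Pool.Agent.helper58.DC Pool.Agent.DI Pool.Agent.GR Pool.Agent.OB

theorem DUN_map {G : Type} [Group G] {R : Subgroup G} {g x : G} (hx : x ∈ R.map (MulAut.conj g).toMonoidHom) :
    ∃ r ∈ R, x = g * r * g⁻¹ := by
  obtain ⟨r, hr, h⟩ := Subgroup.mem_map.1 hx
  exact ⟨r, hr, h.symm⟩

theorem DUN_mem {G : Type} [Group G] {R : Subgroup G} {g r : G} (hr : r ∈ R) :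
    g * r * g⁻¹ ∈ R.map (MulAut.conj g).toMonoidHom :=
  Subgroup.mem_map.2 ⟨r, hr, rfl⟩

theorem DUN_mul {G : Type} [Group G] (R : Subgroup G) (g h : G) :
    (R.map (MulAut.conj g).toMonoidHom).map (MulAut.conj h).toMonoidHom = R.map (MulAut.conj (h * g)).toMonoidHom := by
  ext x
  constructor
  · intro hx
    obtain ⟨y, hy, rfl⟩ := DUN_map hx
    obtain ⟨z, hz, rfl⟩ := DUN_map hy
    have e : h * (g * z * g⁻¹) * h⁻¹ = (h * g) * z * (h * g)⁻¹ := by group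
    rw [e]
    exact DUN_mem hz
  · intro hx
    obtain ⟨z, hz, rfl⟩ := DUN_map hx
    have e : (h * g) * z * (h * g)⁻¹ = h * (g * z * g⁻¹) * h⁻¹ := by group
    rw [e]
    exact DUN_mem (DUN_mem hz)

theorem DUN_one {G : Type} [Group G] (R : Subgroup G) : R.map (MulAut.conj (1 : G)).toMonoidHom = R := by
  ext x
  constructor
  · intro hx
    obtain ⟨z, hz, rfl⟩ := DUN_map hx
    simpa using hz
  · intro hx
    have := DUN_mem (g := 1) hx
    simpa using this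

theorem DUN (h1 : DEX_stmt) (h2 : SUP_stmt) (h3 : SYL_stmt) : DUN_stmt := by
  intro p M hS G _ _ L ψ hψ D x hD
  have hp : Fact p.Prime := ⟨hS.pr⟩
  obtain ⟨-, -, sylc, -, sylcard, -⟩ := h3 p G
  obtain ⟨D1, x1, hD1, hx1⟩ := h1 p M hS G L ψ hψ
  have hsup := h2 p M hS G L ψ hψ
  have key : ∀ (D : Subgroup G) (x : G), DefL p M L ψ D x → ∃ g ∈ L, D1.map (MulAut.conj g).toMonoidHom = D := by
    intro D x hD
    obtain ⟨l, hl, hlr⟩ := hsup x1 hD1.mem hx1 x hD.mem hD.ne D1 hD1.pg hD1.le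
    have hR' : D1.map (MulAut.conj l⁻¹).toMonoidHom ≤ Cz L x := by
      intro y hy
      obtain ⟨r, hr, rfl⟩ := DUN_map hy
      rw [inv_inv]
      exact hlr r hr
    have hpg : IsPGroup p (D1.map (MulAut.conj l⁻¹).toMonoidHom) := hD1.pg.map _
    obtain ⟨k, hk, -, hk2⟩ := sylc D (Cz L x) _ hD.pg hD.le hD.card hpg hR'
    have hc1 : Nat.card D ≤ Nat.card D1 := by
      rw [hD1.card]
      exact hD.min x1 hD1.mem hD1.ne
    have hc2 : Nat.card D1 ≤ Nat.card D := by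
      rw [hD.card]
      exact hD1.min x hD.mem hD.ne
    have hc : Nat.card (D1.map (MulAut.conj l⁻¹).toMonoidHom) = pp p (Cz L x) := by
      rw [(sylcard D1 l⁻¹).2, ← hD.card]
      omega
    have h4 := hk2 hc
    rw [DUN_mul] at h4
    refine ⟨k * l⁻¹, mul_mem ?_ (inv_mem hl), h4⟩
    exact (inf_le_left : Cz L x ≤ L) hk
  obtain ⟨g, hg, hgD⟩ := key D x hD
  refine ⟨?_, ?_, ?_⟩
  · intro D' x' hD'
    obtain ⟨g', hg', hgD'⟩ := key D' x' hD'
    refine ⟨g' * g⁻¹, mul_mem hg' (inv_mem hg), ?_⟩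
    rw [← hgD, DUN_mul, inv_mul_cancel_right]
    exact hgD'
  · intro y hy hny
    obtain ⟨l, hl, hlr⟩ := hsup x1 hD1.mem hx1 y hy hny D1 hD1.pg hD1.le
    refine ⟨g * l, mul_mem hg hl, ?_⟩
    intro d hd
    rw [← hgD] at hd
    obtain ⟨r, hr, rfl⟩ := DUN_map hd
    have e : (g * l)⁻¹ * (g * r * g⁻¹) * (g * l) = l⁻¹ * r * l := by group
    rw [e]
    exact hlr r hr
  · intro a ha hna R hR hRa
    obtain ⟨l, hl, hlr⟩ := hsup a ha hna x hD.mem hD.ne R hR hRa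
    have hR' : R.map (MulAut.conj l⁻¹).toMonoidHom ≤ Cz L x := by
      intro y hy
      obtain ⟨r, hr, rfl⟩ := DUN_map hy
      rw [inv_inv]
      exact hlr r hr
    obtain ⟨k, hk, hk1, -⟩ := sylc D (Cz L x) _ hD.pg hD.le hD.card (hR.map _) hR'
    refine ⟨l * k⁻¹, mul_mem hl (inv_mem ((inf_le_left : Cz L x ≤ L) hk)), ?_⟩
    intro r hr
    have h5 := hk1 _ (DUN_mem (g := l⁻¹) hr)
    have e : (l * k⁻¹)⁻¹ * r * (l * k⁻¹) = k * (l⁻¹ * r * l⁻¹⁻¹) * k⁻¹ := by group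
    rw [e]
    exact h5

end Pool.Agent.FI
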