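import Pool.Agent.helper95.FI.SpecA

set_option autoImplicit false

open Finset

namespace Pool.Agent.FI

private theorem CN3_assoc (u v w : ℤ × ℤ) : mul8 (mul8 u v) w = mul8 u (mul8 v w) := by
  unfold mul8
  refine Prod.ext ?_ ?_ <;> (simp only; ring)

private theorem CN3_comm (u v : ℤ × ℤ) : mul8 u v = mul8 v u := by
  unfold mul8
  refine Prod.ext ?_ ?_ <;> (simp only; ring)

private theorem CN3_N8 (u v : ℤ × ℤ) : N8 (mul8 u v) = N8 u * N8 v := by
  unfold mul8 N8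
  simp only
  ring

private theorem CN3_cj (u : ℤ × ℤ) (hu : N8 u = 1) (v : ℤ × ℤ) : mul8 (cj u) (mul8 u v) = v := by
  unfold N8 at hu
  unfold mul8 cj
  refine Prod.ext ?_ ?_
  · simp only
    linear_combination v.1 * hu
  · simp only
    linear_combination v.2 * hu

private theorem CN3_N8cj (u : ℤ × ℤ) : N8 (cj u) = N8 u := by
  unfold N8 cj
  simp only
  ring

private theorem CN3_box (R : ℕ) (w w₀ v : ℤ × ℤ) (hw : w ∈ Bx R) (hw₀ : w₀ ∈ Bx R)
    (h : mul8 v w₀ = w) (h0 : N8 w₀ ≠ 0) : v ∈ Bx (9 * R ^ 2) := by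
  unfold Bx at hw hw₀ ⊢
  rw [mem_product, mem_Icc, mem_Icc] at hw hw₀ ⊢
  obtain ⟨⟨a1, a2⟩, a3, a4⟩ := hw
  obtain ⟨⟨b1, b2⟩, b3, b4⟩ := hw₀
  have e1 : v.1 * N8 w₀ = w.1 * w₀.1 - 8 * (w.2 * w₀.2) := by
    rw [← h]
    unfold mul8 N8
    simp only
    ring
  have e2 : v.2 * N8 w₀ = w.2 * w₀.1 - w.1 * w₀.2 := by
    rw [← h]
    unfold mul8 N8
    simp only
    ring
  have hR : (0 : ℤ) ≤ R := Int.natCast_nonneg R
  have hab : ∀ x y : ℤ, -(R : ℤ) ≤ x → x ≤ R → -(R : ℤ) ≤ y → y ≤ R → |x * y| ≤ (R : ℤ) ^ 2 := by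
    intro x y h1 h2 h3 h4
    rw [abs_mul, sq]
    exact mul_le_mul (abs_le.2 ⟨h1, h2⟩) (abs_le.2 ⟨h3, h4⟩) (abs_nonneg _) hR
  have hone : 1 ≤ |N8 w₀| := Int.one_le_abs h0
  have c1 : |v.1| ≤ 9 * (R : ℤ) ^ 2 := by
    calc |v.1| = |v.1| * 1 := (mul_one _).symm
      _ ≤ |v.1| * |N8 w₀| := mul_le_mul_of_nonneg_left hone (abs_nonneg _)
      _ = |w.1 * w₀.1 - 8 * (w.2 * w₀.2)| := by rw [← abs_mul, e1]
      _ ≤ |w.1 * w₀.1| + |8 * (w.2 * w₀.2)| := abs_sub _ _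
      _ = |w.1 * w₀.1| + 8 * |w.2 * w₀.2| := by rw [abs_mul 8]; norm_num
      _ ≤ (R : ℤ) ^ 2 + 8 * (R : ℤ) ^ 2 :=
        add_le_add (hab _ _ a1 a2 b1 b2) (mul_le_mul_of_nonneg_left (hab _ _ a3 a4 b3 b4) (by norm_num))
      _ = 9 * (R : ℤ) ^ 2 := by ring
  have c2 : |v.2| ≤ 9 * (R : ℤ) ^ 2 := by
    calc |v.2| = |v.2| * 1 := (mul_one _).symm
      _ ≤ |v.2| * |N8 w₀| := mul_le_mul_of_nonneg_left hone (abs_nonneg _)
      _ = |w.2 * w₀.1 - w.1 * w₀.2| := by rw [← abs_mul, e2]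
      _ ≤ |w.2 * w₀.1| + |w.1 * w₀.2| := abs_sub _ _
      _ ≤ (R : ℤ) ^ 2 + (R : ℤ) ^ 2 := add_le_add (hab _ _ a3 a4 b1 b2) (hab _ _ a1 a2 b3 b4)
      _ ≤ 9 * (R : ℤ) ^ 2 := by nlinarith [sq_nonneg (R : ℤ)]
  have d1 := abs_le.1 c1
  have d2 := abs_le.1 c2
  push_cast
  exact ⟨⟨d1.1, d1.2⟩, d2.1, d2.2⟩

theorem CN3 (hFDE : FDE_stmt) (hCN2 : CN2_stmt) (hSIZ : SIZ_stmt) (hUCT : UCT_stmt) : CN3_stmt := by
  obtain ⟨C, hC, hU⟩ := hUCT
  refine ⟨4 * C, by positivity, fun R k hR hk => ?_⟩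
  have hRr : (1 : ℝ) ≤ R := by exact_mod_cast hR
  have hlR : 0 ≤ Real.log R := Real.log_nonneg hRr
  set S : Finset (ℤ × ℤ) := {w ∈ Bx R | w.1 % 2 = 1 ∧ nn w = k} with hS
  by_cases hkodd : Odd k
  · -- the map to the fundamental domain
    have hex : ∀ w : ℤ × ℤ, ∃ u : ℤ × ℤ, w.1 % 2 = 1 → N8 u = 1 ∧ Fd (mul8 u w) := by
      intro w
      by_cases hw : w.1 % 2 = 1
      · obtain ⟨u, hu⟩ := hFDE w hw
        exact ⟨u, fun _ => hu⟩
      · exact ⟨(0, 0), fun h => absurd h hw⟩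
    choose u hu using hex
    set T : Finset (ℤ × ℤ) := {z ∈ FF k | nn z = k} with hT
    have hST : ∀ w ∈ S, mul8 (u w) w ∈ T := by
      intro w hw
      rw [hS, mem_filter] at hw
      obtain ⟨h1, h2⟩ := hu w hw.2.1
      have h3 : nn (mul8 (u w) w) = k := by
        unfold nn
        rw [CN3_N8, h1, one_mul]
        exact hw.2.2
      have h4 := (hSIZ _ h2).2.2.2.1
      rw [h3] at h4
      rw [hT, mem_filter]
      exact ⟨h4, h3⟩
    have hfib : ∀ z ∈ T, #(S.filter fun w => mul8 (u w) w = z) ≤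
        #{v ∈ Bx (9 * R ^ 2) | N8 v = 1} := by
      intro z _
      rcases Finset.eq_empty_or_nonempty (S.filter fun w => mul8 (u w) w = z) with he | ⟨w₀, hw₀⟩
      · rw [he]
        exact Nat.zero_le _
      · rw [mem_filter] at hw₀
        obtain ⟨hw₀S, hw₀z⟩ := hw₀
        rw [hS, mem_filter] at hw₀S
        obtain ⟨hu0, -⟩ := hu w₀ hw₀S.2.1
        have hN0 : N8 w₀ ≠ 0 := by
          intro h
          have h1 : nn w₀ = k := hw₀S.2.2
          unfold nn at h1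
          rw [h] at h1
          have : k = 0 := h1.symm
          omega
        have hkey : ∀ w ∈ S.filter (fun w => mul8 (u w) w = z),
            mul8 (mul8 (cj (u w)) (u w₀)) w₀ = w ∧ N8 (mul8 (cj (u w)) (u w₀)) = 1 ∧ w ∈ Bx R := by
          intro w hw
          rw [mem_filter] at hw
          obtain ⟨hwS, hwz⟩ := hw
          rw [hS, mem_filter] at hwS
          obtain ⟨hu1, -⟩ := hu w hwS.2.1
          refine ⟨?_, ?_, hwS.1⟩
          · rw [CN3_assoc, hw₀z, ← hwz, CN3_cj _ hu1]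
          · rw [CN3_N8, CN3_N8cj, hu1, hu0, one_mul]
        refine Finset.card_le_card_of_injOn (fun w => mul8 (cj (u w)) (u w₀)) ?_ ?_
        · intro w hw
          obtain ⟨k1, k2, k3⟩ := hkey w hw
          rw [Finset.mem_coe, mem_filter]
          exact ⟨CN3_box R w w₀ _ k3 hw₀S.1 k1 hN0, k2⟩
        · intro w hw w' hw' hww
          have h1 := (hkey w hw).1
          have h2 := (hkey w' hw').1
          have h3 : mul8 (cj (u w)) (u w₀) = mul8 (cj (u w')) (u w₀) := hww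
          rw [← h1, ← h2, h3]
    have hcard := Finset.card_le_mul_card_image_of_maps_to hST _ hfib
    have h1 := hCN2 k hkodd
    have h2 := hU (9 * R ^ 2) (Nat.mul_pos (by norm_num) (pow_pos hR 2))
    have h3 : 1 + Real.log ((9 * R ^ 2 : ℕ) : ℝ) ≤ 4 * (1 + Real.log R) := by
      push_cast
      rw [Real.log_mul (by norm_num) (by positivity), Real.log_pow]
      have h4 : Real.log 9 ≤ 3 := by
        rw [Real.log_le_iff_le_exp (by norm_num)]
        have h5 : (2.7182818283 : ℝ) < Real.exp 1 := Real.exp_one_gt_d9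
        have h6 : Real.exp 3 = Real.exp 1 ^ 3 := by rw [← Real.exp_nat_mul]; norm_num
        rw [h6]
        have h7 : (2.7182818283 : ℝ) ^ 3 ≤ Real.exp 1 ^ 3 := pow_le_pow_left₀ (by norm_num) h5.le 3
        norm_num at h7 ⊢
        linarith
      push_cast
      linarith
    have hT' : (#T : ℝ) ≤ (#k.divisors : ℝ) ^ 2 := by exact_mod_cast h1
    calc (#S : ℝ) ≤ (#{v ∈ Bx (9 * R ^ 2) | N8 v = 1} : ℝ) * (#T : ℝ) := by exact_mod_cast hcard
      _ ≤ (C * (4 * (1 + Real.log R))) * (#k.divisors : ℝ) ^ 2 := by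
          refine mul_le_mul (h2.trans (mul_le_mul_of_nonneg_left h3 hC.le)) hT' (by positivity) ?_
          positivity
      _ = 4 * C * (1 + Real.log R) * (#k.divisors : ℝ) ^ 2 := by ring
  · -- even k
    have hemp : S = ∅ := by
      rw [Finset.eq_empty_iff_forall_notMem]
      intro w hw
      rw [hS, mem_filter] at hw
      apply hkodd
      rw [← hw.2.2]
      unfold nn
      rw [Int.natAbs_odd]
      unfold N8
      have h1 : Odd w.1 := Int.odd_iff.2 hw.2.1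
      have h2 : Odd (w.1 ^ 2) := h1.pow
      have h3 : Even (8 * w.2 ^ 2) := ⟨4 * w.2 ^ 2, by ring⟩
      exact h2.sub_even h3
    rw [hemp, Finset.card_empty, Nat.cast_zero]
    positivity

end Pool.Agent.FI
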