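import Pool.Agent.helper40.FI.SpecLA

set_option autoImplicit false

namespace Pool.Agent.FI

open Finset

theorem LRU_geom (w : ℂ) (N : ℕ) (h : w ^ N = 1) : ∃ m : ℤ, ∑ s ∈ Finset.range N, w ^ s = (m : ℂ) := by
  by_cases hw : w = 1
  · refine ⟨N, ?_⟩
    subst hw
    simp
  · refine ⟨0, ?_⟩
    have h1 := geom_sum_mul w N
    rw [h, sub_self] at h1
    rcases mul_eq_zero.1 h1 with h2 | h2
    · rw [h2]; simp
    · exact absurd (sub_eq_zero.1 h2) hw

theorem LRU : LRU_stmt := by
  intro p k w hp hw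
  rcases Nat.eq_zero_or_pos k with hk | hk
  · subst hk
    refine ⟨0, ?_⟩
    have : (Finset.range (p ^ 0)).filter (fun s => ¬ p ∣ s) = ∅ := by
      rw [Finset.filter_eq_empty_iff]
      intro s hs
      rw [Finset.mem_range, pow_zero] at hs
      have : s = 0 := by omega
      subst this
      simp
    rw [this]
    simp
  · obtain ⟨j, rfl⟩ : ∃ j, k = j + 1 := ⟨k - 1, by omega⟩
    obtain ⟨a, ha⟩ := LRU_geom w _ hw
    obtain ⟨b, hb⟩ := LRU_geom (w ^ p) (p ^ j) (by rw [← pow_mul, ← hw, pow_succ, mul_comm])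
    refine ⟨a - b, ?_⟩
    have h1 := Finset.sum_filter_add_sum_filter_not (Finset.range (p ^ (j + 1))) (fun s => p ∣ s) (fun s => w ^ s)
    have h2 : ∑ s ∈ (Finset.range (p ^ (j + 1))).filter (fun s => p ∣ s), w ^ s = ∑ i ∈ Finset.range (p ^ j), (w ^ p) ^ i := by
      symm
      apply Finset.sum_bij (fun i _ => p * i)
      · intro i hi
        rw [Finset.mem_range] at hi
        rw [Finset.mem_filter, Finset.mem_range]
        refine ⟨?_, dvd_mul_right _ _⟩
        rw [pow_succ, mul_comm]
        exact Nat.mul_lt_mul_of_pos_right hi hp.pos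
      · intro i _ i' _ h
        exact Nat.eq_of_mul_eq_mul_left hp.pos h
      · intro s hs
        rw [Finset.mem_filter, Finset.mem_range] at hs
        obtain ⟨i, rfl⟩ := hs.2
        refine ⟨i, ?_, rfl⟩
        rw [Finset.mem_range]
        have h3 := hs.1
        rw [pow_succ, mul_comm (p ^ j)] at h3
        exact Nat.lt_of_mul_lt_mul_left h3
      · intro i _
        rw [← pow_mul]
    rw [h2, hb, ha] at h1
    rw [Int.cast_sub]
    linear_combination h1

end Pool.Agent.FI
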