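import Pool.Agent.helper95.FI.SpecT
import Pool.Agent.helper85.BVP.Tau

set_option autoImplicit false

open Finset

namespace Pool.Agent.FI

/-- the twisted sum -/
private noncomputable def LS1_F (X : ℕ) (b : ℕ → ℂ) (k r : ℕ) (ψ : DirichletCharacter ℂ r) : ℝ :=
  ‖∑ n ∈ Ioc 0 X with Nat.Coprime n k, b n * ψ (n : ZMod r)‖ ^ 2

private theorem LS1_prim (X : ℕ) (b : ℕ → ℂ) (m : ℕ) (χ : DirichletCharacter ℂ m) :
    ‖∑ n ∈ Ioc 0 X, b n * χ (n : ZMod m)‖ ^ 2 =
      LS1_F X b (m / χ.conductor) χ.conductor χ.primitiveCharacter := by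
  unfold LS1_F
  rw [Finset.sum_filter]
  congr 2
  refine sum_congr rfl fun n _ => ?_
  have hd := χ.conductor_dvd_level
  have hms : m = χ.conductor * (m / χ.conductor) := (Nat.mul_div_cancel' hd).symm
  by_cases h : Nat.Coprime n m
  · have h2 := χ.primitiveCharacter_apply_of_isCoprime (a := (n : ℤ))
      (Nat.isCoprime_iff_coprime.mpr h)
    push_cast at h2
    have h3 : Nat.Coprime n (m / χ.conductor) := Nat.Coprime.coprime_dvd_right
      (Nat.div_dvd_of_dvd hd) h
    rw [if_pos h3, h2]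
  · have hu : ¬ IsUnit (n : ZMod m) := fun hu => h ((ZMod.isUnit_iff_coprime n m).mp hu)
    rw [MulChar.map_nonunit _ hu, mul_zero]
    by_cases h3 : Nat.Coprime n (m / χ.conductor)
    · have h4 : ¬ Nat.Coprime n χ.conductor := by
        intro h4
        exact h (by rw [hms]; exact Nat.Coprime.mul_right h4 h3)
      have hu' : ¬ IsUnit (n : ZMod χ.conductor) := fun hu =>
        h4 ((ZMod.isUnit_iff_coprime n χ.conductor).mp hu)
      rw [if_pos h3, MulChar.map_nonunit _ hu', mul_zero]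
    · rw [if_neg h3]

open scoped Classical in
private theorem LS1_chars (m : ℕ) (hm : 0 < m) (F : ∀ s r : ℕ, DirichletCharacter ℂ r → ℝ)
    (hF : ∀ (s r : ℕ) (χ : DirichletCharacter ℂ r), 0 ≤ F s r χ) :
    ∑ χ : DirichletCharacter ℂ m, F (m / χ.conductor) χ.conductor χ.primitiveCharacter ≤
      ∑ r ∈ m.divisors, ∑ χ : DirichletCharacter ℂ r with χ.IsPrimitive, F (m / r) r χ := by
  set T : Finset (Σ r : ℕ, DirichletCharacter ℂ r) :=
    (m.divisors).sigma
      (fun r => (univ : Finset (DirichletCharacter ℂ r)).filter (fun χ => χ.IsPrimitive)) with hT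
  set g : DirichletCharacter ℂ m → (Σ r : ℕ, DirichletCharacter ℂ r) :=
    fun χ => ⟨χ.conductor, χ.primitiveCharacter⟩ with hg
  have hinj : Function.Injective g := by
    have hleft : ∀ χ : DirichletCharacter ℂ m,
        (fun i : (Σ r : ℕ, DirichletCharacter ℂ r) =>
          if h : i.1 ∣ m then DirichletCharacter.changeLevel h i.2 else 1) (g χ) = χ := by
      intro χ
      simp only [hg]
      rw [dif_pos χ.conductor_dvd_level]
      exact χ.changeLevel_primitiveCharacter
    intro χ χ' h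
    rw [← hleft χ, ← hleft χ', h]
  have e1 : ∑ χ : DirichletCharacter ℂ m, F (m / χ.conductor) χ.conductor χ.primitiveCharacter
      = ∑ i ∈ univ.image g, F (m / i.1) i.1 i.2 := by
    rw [sum_image (fun x _ y _ h => hinj h)]
  have e2 : ∑ r ∈ m.divisors, ∑ χ : DirichletCharacter ℂ r with χ.IsPrimitive,
      F (m / r) r χ = ∑ i ∈ T, F (m / i.1) i.1 i.2 := by
    rw [hT, sum_sigma]
  rw [e1, e2]
  refine sum_le_sum_of_subset_of_nonneg ?_ (fun _ _ _ => hF _ _ _)
  intro i hi
  rw [mem_image] at hi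
  obtain ⟨χ, -, rfl⟩ := hi
  rw [hT, mem_sigma, mem_filter, Nat.mem_divisors]
  exact ⟨⟨χ.conductor_dvd_level, hm.ne'⟩, mem_univ _, χ.primitiveCharacter_isPrimitive⟩

theorem LS1 : LS1_stmt := by
  classical
  intro D₁ X b
  -- the function of two variables
  set G : ℕ → ℕ → ℝ := fun k r => ∑ ψ : DirichletCharacter ℂ r with ψ.IsPrimitive,
    ‖∑ n ∈ Ioc 0 X with Nat.Coprime n k, b n * ψ (n : ZMod r)‖ ^ 2 with hG
  have hG0 : ∀ k r, 0 ≤ G k r := fun k r => Finset.sum_nonneg fun ψ _ => by positivity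
  have h1 : ∀ D ∈ Icc 1 D₁, 1 / (Nat.totient D : ℝ) *
      ∑ χ : DirichletCharacter ℂ D, ‖∑ n ∈ Ioc 0 X, b n * χ (n : ZMod D)‖ ^ 2 ≤
      ∑ k ∈ D.divisors, (fun D k => 1 / (Nat.totient k : ℝ) *
        (1 / (Nat.totient (D / k) : ℝ) * G k (D / k))) D k := by
    intro D hD
    rw [mem_Icc] at hD
    have hD0 : 0 < D := by omega
    have h2 : ∑ χ : DirichletCharacter ℂ D, ‖∑ n ∈ Ioc 0 X, b n * χ (n : ZMod D)‖ ^ 2 ≤
        ∑ r ∈ D.divisors, G (D / r) r := by
      have h3 := LS1_chars D hD0 (LS1_F X b) (fun _ _ _ => by unfold LS1_F; positivity)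
      refine le_trans (le_of_eq ?_) h3
      exact sum_congr rfl fun χ _ => LS1_prim X b D χ
    have h4 : ∑ r ∈ D.divisors, G (D / r) r = ∑ k ∈ D.divisors, G k (D / k) := by
      rw [← Nat.sum_div_divisors D (fun k => G k (D / k))]
      refine sum_congr rfl fun r hr => ?_
      rw [Nat.mem_divisors] at hr
      rw [Nat.div_div_self hr.1 hr.2]
    rw [h4] at h2
    calc 1 / (Nat.totient D : ℝ) *
        ∑ χ : DirichletCharacter ℂ D, ‖∑ n ∈ Ioc 0 X, b n * χ (n : ZMod D)‖ ^ 2
        ≤ 1 / (Nat.totient D : ℝ) * ∑ k ∈ D.divisors, G k (D / k) :=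
          mul_le_mul_of_nonneg_left h2 (by positivity)
      _ = ∑ k ∈ D.divisors, 1 / (Nat.totient D : ℝ) * G k (D / k) := by rw [mul_sum]
      _ ≤ _ := by
          refine sum_le_sum fun k hk => ?_
          rw [Nat.mem_divisors] at hk
          show _ ≤ 1 / (Nat.totient k : ℝ) * (1 / (Nat.totient (D / k) : ℝ) * G k (D / k))
          rw [← mul_assoc]
          refine mul_le_mul_of_nonneg_right ?_ (hG0 _ _)
          have hk0 : 0 < k := Nat.pos_of_dvd_of_pos hk.1 hD0
          have hr0 : 0 < D / k := Nat.div_pos (Nat.le_of_dvd hD0 hk.1) hk0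
          have p1 : (0 : ℝ) < Nat.totient k := by exact_mod_cast Nat.totient_pos.mpr hk0
          have p2 : (0 : ℝ) < Nat.totient (D / k) := by exact_mod_cast Nat.totient_pos.mpr hr0
          have p3 : (Nat.totient k : ℝ) * Nat.totient (D / k) ≤ Nat.totient D := by
            have := Nat.totient_super_multiplicative k (D / k)
            rw [Nat.mul_div_cancel' hk.1] at this
            exact_mod_cast this
          rw [one_div_mul_one_div]
          exact one_div_le_one_div_of_le (by positivity) p3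
  refine (Finset.sum_le_sum h1).trans (le_of_eq ?_)
  have hIcc : ∀ n : ℕ, Icc 1 n = Ioc 0 n := fun n => by
    ext x
    rw [mem_Icc, mem_Ioc]
    omega
  rw [hIcc, Pool.Agent.helper85.BVP.sum_divisors_swap]
  refine sum_congr rfl fun k hk => ?_
  rw [mem_Ioc] at hk
  rw [mul_sum, hIcc]
  refine sum_congr rfl fun r _ => ?_
  show 1 / (Nat.totient k : ℝ) * (1 / (Nat.totient (k * r / k) : ℝ) * G k (k * r / k)) = _
  rw [Nat.mul_div_cancel_left r hk.1]

end Pool.Agent.FI
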