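import Pool.Agent.helper95.FI.SpecT
import Pool.Agent.helper85.MT.MLS

set_option autoImplicit false

open Finset

namespace Pool.Agent.FI

private theorem LS2_abel (T : ℕ → ℝ) (K X : ℝ) (R₀ : ℕ) (hR : 1 ≤ R₀) (hK : 0 ≤ K)
    (hA : ∀ n : ℕ, ∑ r ∈ Icc 1 n, T r ≤ K * (X + (n : ℝ) ^ 2)) (n : ℕ) (hn : R₀ ≤ n)
    (hT : ∀ r, 0 ≤ T r) :
    ∑ r ∈ Ioc R₀ n, T r / r ≤ (∑ r ∈ Icc 1 n, T r) / n +
      K * (X * (1 / (R₀ : ℝ) - 1 / n) + ((n : ℝ) - R₀)) := by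
  induction n, hn using Nat.le_induction with
  | base =>
    rw [Ioc_self, sum_empty, sub_self, sub_self, mul_zero, add_zero, mul_zero, add_zero]
    exact div_nonneg (sum_nonneg fun r _ => hT r) (by positivity)
  | succ n hn ih =>
    have hn0 : (0 : ℝ) < n := by exact_mod_cast (by omega : 0 < n)
    rw [sum_Ioc_succ_top hn, sum_Icc_succ_top (by omega : 1 ≤ n + 1)]
    set A := ∑ r ∈ Icc 1 n, T r with hAd
    have h1 := hA n
    push_cast
    have h2 : (A + T (n + 1)) / ((n : ℝ) + 1) + K * (X * (1 / (R₀ : ℝ) - 1 / ((n : ℝ) + 1)) +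
        ((n : ℝ) + 1 - R₀)) = (A / n + K * (X * (1 / (R₀ : ℝ) - 1 / n) + ((n : ℝ) - R₀))) +
        T (n + 1) / ((n : ℝ) + 1) + (K * (X + n * (n + 1)) - A) / (n * (n + 1)) := by
      field_simp
      ring
    rw [h2]
    have h3 : 0 ≤ (K * (X + n * (n + 1)) - A) / (n * (n + 1)) := by
      apply div_nonneg _ (by positivity)
      have h4 : K * (X + (n : ℝ) ^ 2) ≤ K * (X + n * (n + 1)) :=
        mul_le_mul_of_nonneg_left (by nlinarith) hK
      linarith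
    linarith

theorem LS2 : LS2_stmt := by
  classical
  refine ⟨10, by norm_num, fun Q R₀ X b hR => ?_⟩
  set S : ℕ → ℝ := fun r => ∑ ψ : DirichletCharacter ℂ r with ψ.IsPrimitive,
    ‖∑ n ∈ Ioc 0 X, b n * ψ (n : ZMod r)‖ ^ 2 with hS
  have hS0 : ∀ r, 0 ≤ S r := fun r => sum_nonneg fun _ _ => by positivity
  set B := ∑ n ∈ Ioc 0 X, ‖b n‖ ^ 2 with hB
  have hB0 : 0 ≤ B := sum_nonneg fun _ _ => by positivity
  have hR0 : (0 : ℝ) < R₀ := by exact_mod_cast hR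
  show ∑ r ∈ Ioc R₀ Q, 1 / (Nat.totient r : ℝ) * S r ≤ 10 * ((X : ℝ) / R₀ + Q) * B
  rcases Nat.lt_or_ge Q R₀ with hQ | hQ
  · rw [Ioc_eq_empty (by omega), sum_empty]
    positivity
  · set T : ℕ → ℝ := fun r => (r : ℝ) / Nat.totient r * S r with hT
    have hT0 : ∀ r, 0 ≤ T r := fun r => mul_nonneg (by positivity) (hS0 r)
    have hA : ∀ n : ℕ, ∑ r ∈ Icc 1 n, T r ≤ (5 * B) * ((X : ℝ) + (n : ℝ) ^ 2) := by
      intro n
      have h1 := Pool.Agent.helper85.MT.mult_large_sieve n 0 X b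
      rw [zero_add] at h1
      refine h1.trans (le_of_eq ?_)
      ring
    have h2 := LS2_abel T (5 * B) X R₀ hR (by positivity) hA Q hQ hT0
    have h3 : ∑ r ∈ Ioc R₀ Q, 1 / (Nat.totient r : ℝ) * S r = ∑ r ∈ Ioc R₀ Q, T r / r := by
      refine sum_congr rfl fun r hr => ?_
      rw [mem_Ioc] at hr
      have hr1 : 0 < r := by omega
      have hr0 : (r : ℝ) ≠ 0 := by exact_mod_cast hr1.ne'
      show _ = (r : ℝ) / Nat.totient r * S r / r
      field_simp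
    rw [h3]
    refine h2.trans ?_
    have hQ0 : (0 : ℝ) < Q := by exact_mod_cast (by omega : 0 < Q)
    have hQR : (R₀ : ℝ) ≤ Q := by exact_mod_cast hQ
    have h4 : (∑ r ∈ Icc 1 Q, T r) / Q ≤ 5 * B * ((X : ℝ) / R₀ + Q) := by
      rw [div_le_iff₀ hQ0]
      refine (hA Q).trans ?_
      rw [mul_assoc (5 * B) ((X : ℝ) / R₀ + Q) (Q : ℝ)]
      refine mul_le_mul_of_nonneg_left ?_ (by positivity)
      have h5 : (X : ℝ) ≤ X / R₀ * Q := by
        rw [div_mul_eq_mul_div, le_div_iff₀ hR0]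
        exact mul_le_mul_of_nonneg_left hQR (by positivity)
      nlinarith
    have h6 : (X : ℝ) * (1 / (R₀ : ℝ) - 1 / Q) + ((Q : ℝ) - R₀) ≤ X / R₀ + Q := by
      have h7 : 0 ≤ (X : ℝ) * (1 / Q) := by positivity
      have h8 : (X : ℝ) * (1 / (R₀ : ℝ) - 1 / Q) = X / R₀ - X * (1 / Q) := by ring
      rw [h8]
      linarith
    have h9 : 5 * B * ((X : ℝ) * (1 / (R₀ : ℝ) - 1 / Q) + ((Q : ℝ) - R₀)) ≤
        5 * B * (X / R₀ + Q) := mul_le_mul_of_nonneg_left h6 (by positivity)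
    calc _ ≤ 5 * B * ((X : ℝ) / R₀ + Q) + 5 * B * (X / R₀ + Q) := add_le_add h4 h9
      _ = _ := by ring

end Pool.Agent.FI
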