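import Pool.Agent.helper95.FI.SpecT
import Pool.Agent.helper85.BVP.Tau
import Pool.Agent.helper20.GD.BV1

set_option autoImplicit false

open Finset

namespace Pool.Agent.FI

open scoped Classical

private theorem LSP_cast (u v k : ℕ) (f : ℤ → ℂ) :
    ∑ l ∈ Ioc (u : ℤ) v with IsCoprime l (k : ℤ), f l =
      ∑ n ∈ Ioc u v with Nat.Coprime n k, f (n : ℤ) := by
  symm
  refine Finset.sum_nbij' (fun n => (n : ℤ)) (fun l => l.toNat) ?_ ?_ ?_ ?_ ?_
  · intro n hn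
    rw [mem_filter, mem_Ioc] at hn
    rw [mem_filter, mem_Ioc]
    exact ⟨⟨by exact_mod_cast hn.1.1, by exact_mod_cast hn.1.2⟩, Nat.isCoprime_iff_coprime.2 hn.2⟩
  · intro l hl
    rw [mem_filter, mem_Ioc] at hl
    rw [mem_filter, mem_Ioc]
    have h0 : 0 ≤ l := by
      have : (0 : ℤ) ≤ u := Int.natCast_nonneg u
      omega
    refine ⟨⟨by omega, by omega⟩, ?_⟩
    rw [← Nat.isCoprime_iff_coprime, Int.toNat_of_nonneg h0]
    exact hl.2
  · intro n _
    exact Int.toNat_natCast n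
  · intro l hl
    rw [mem_filter, mem_Ioc] at hl
    have : (0 : ℤ) ≤ u := Int.natCast_nonneg u
    exact Int.toNat_of_nonneg (by omega)
  · intro n _
    rfl

/-- the convolution -/
private noncomputable def LSP_b (I J : Finset ℕ) (lam : ℤ → ℝ) (n : ℕ) : ℂ :=
  ∑ p ∈ I ×ˢ J with p.1 * p.2 = n, ((lam p.1 : ℂ) * (lam p.2 : ℂ))

private theorem LSP_mul (I J : Finset ℕ) (lam : ℤ → ℝ) (X k r : ℕ) (ψ : DirichletCharacter ℂ r)
    (hX : ∀ p ∈ I ×ˢ J, p.1 * p.2 ∈ Ioc 0 X) :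
    (∑ n ∈ I with Nat.Coprime n k, (lam n : ℂ) * ψ (n : ZMod r)) *
      (∑ n ∈ J with Nat.Coprime n k, (lam n : ℂ) * ψ (n : ZMod r)) =
      ∑ n ∈ Ioc 0 X with Nat.Coprime n k, LSP_b I J lam n * ψ (n : ZMod r) := by
  rw [Finset.sum_filter, Finset.sum_filter, Finset.sum_filter, Finset.sum_mul_sum,
    ← Finset.sum_product', ← Finset.sum_fiberwise_of_maps_to hX]
  refine Finset.sum_congr rfl fun n _ => ?_
  by_cases hn : Nat.Coprime n k
  · rw [if_pos hn]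
    unfold LSP_b
    rw [Finset.sum_mul]
    refine Finset.sum_congr rfl fun p hp => ?_
    have hp2 := (mem_filter.1 hp).2
    have h1 : Nat.Coprime p.1 k := Nat.Coprime.coprime_dvd_left ⟨p.2, hp2.symm⟩ hn
    have h2 : Nat.Coprime p.2 k :=
      Nat.Coprime.coprime_dvd_left ⟨p.1, by rw [mul_comm]; exact hp2.symm⟩ hn
    rw [if_pos h1, if_pos h2, ← hp2, Nat.cast_mul, map_mul]
    ring
  · rw [if_neg hn]
    refine Finset.sum_eq_zero fun p hp => ?_
    have hp2 := (mem_filter.1 hp).2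
    by_cases h1 : Nat.Coprime p.1 k
    · have h2 : ¬ Nat.Coprime p.2 k := fun h2 => hn (by rw [← hp2]; exact Nat.Coprime.mul_left h1 h2)
      rw [if_neg h2, mul_zero]
    · rw [if_neg h1, zero_mul]

private theorem LSP_bb (I J : Finset ℕ) (lam : ℤ → ℝ) (M : ℝ) (hM : ∀ l, |lam l| ≤ M) (n : ℕ)
    (hn : 0 < n) : ‖LSP_b I J lam n‖ ≤ M ^ 2 * Pool.Agent.helper85.BVP.tau n := by
  have hM0 : 0 ≤ M := (abs_nonneg _).trans (hM 0)
  unfold LSP_b
  have h1 : ∀ p ∈ (I ×ˢ J).filter (fun p => p.1 * p.2 = n),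
      ‖(lam p.1 : ℂ) * (lam p.2 : ℂ)‖ ≤ M ^ 2 := by
    intro p _
    rw [norm_mul, Complex.norm_real, Complex.norm_real, Real.norm_eq_abs, Real.norm_eq_abs, sq]
    exact mul_le_mul (hM _) (hM _) (abs_nonneg _) hM0
  refine (norm_sum_le_of_le _ h1).trans ?_
  rw [Finset.sum_const, nsmul_eq_mul, mul_comm]
  refine mul_le_mul_of_nonneg_left ?_ (by positivity)
  have h2 : #((I ×ˢ J).filter fun p => p.1 * p.2 = n) ≤ #n.divisors := by
    refine Finset.card_le_card_of_injOn (fun p => p.1) ?_ ?_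
    · intro p hp
      have hp2 := (mem_filter.1 hp).2
      rw [Finset.mem_coe, Nat.mem_divisors]
      exact ⟨⟨p.2, hp2.symm⟩, hn.ne'⟩
    · intro p hp q hq hpq
      have hp2 := (mem_filter.1 hp).2
      have hq2 := (mem_filter.1 hq).2
      have h3 : p.1 = q.1 := hpq
      rw [← hq2, h3] at hp2
      have h4 : 0 < q.1 := by
        rcases Nat.eq_zero_or_pos q.1 with h | h
        · rw [h, zero_mul] at hq2
          omega
        · exact h
      exact Prod.ext h3 (Nat.eq_of_mul_eq_mul_left h4 hp2)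
  have h3 : Pool.Agent.helper85.BVP.tau n = (#n.divisors : ℝ) := rfl
  rw [h3]
  exact_mod_cast h2

private theorem LSP_pt (x K i : ℕ) (hi : i < K) :
    x ≤ pt x K i ∧ pt x K i ≤ pt x K (i + 1) ∧ pt x K (i + 1) ≤ 2 * x := by
  unfold pt
  refine ⟨Nat.le_add_right _ _, ?_, ?_⟩
  · apply Nat.add_le_add_left
    apply Nat.div_le_div_right
    exact Nat.mul_le_mul_right _ (Nat.le_succ i)
  · have h1 : (i + 1) * x / K ≤ x := by
      apply Nat.div_le_of_le_mul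
      exact Nat.mul_le_mul_right _ hi
    omega

private theorem LSP_card (r : ℕ) (hr : 0 < r) :
    (#{ψ : DirichletCharacter ℂ r | ψ.IsPrimitive} : ℝ) ≤ Nat.totient r := by
  have : NeZero r := ⟨hr.ne'⟩
  have h1 : #{ψ : DirichletCharacter ℂ r | ψ.IsPrimitive} ≤ #(univ : Finset (DirichletCharacter ℂ r)) :=
    card_le_card (filter_subset _ _)
  have h4 : #(univ : Finset (DirichletCharacter ℂ r)) = Nat.totient r := by
    rw [card_univ, ← Nat.card_eq_fintype_card]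
    exact DirichletCharacter.card_eq_totient_of_hasEnoughRootsOfUnity ℂ r
  rw [h4] at h1
  exact_mod_cast h1

theorem LSP (hLS1 : LS1_stmt) (hLS2 : LS2_stmt) : LSP_stmt := by
  obtain ⟨C₂, hC₂, hLS2⟩ := hLS2
  refine ⟨Real.exp 30 * (1 + 432 * C₂), by positivity, ?_⟩
  intro x K D₁ R₀ hx hK hD₁ hR₀ hDx M S lam hM hSW i j hi hj
  have hM0 : 0 ≤ M := (abs_nonneg _).trans (hM 0)
  obtain ⟨i1, i2, i3⟩ := LSP_pt x K i hi
  obtain ⟨j1, j2, j3⟩ := LSP_pt x K j hj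
  set I : Finset ℕ := Ioc (pt x K i) (pt x K (i + 1)) with hI
  set J : Finset ℕ := Ioc (pt x K j) (pt x K (j + 1)) with hJ
  set X : ℕ := 4 * x ^ 2 with hX
  have hIJ : ∀ p ∈ I ×ˢ J, p.1 * p.2 ∈ Ioc 0 X := by
    intro p hp
    rw [mem_product, hI, hJ, mem_Ioc, mem_Ioc] at hp
    rw [mem_Ioc]
    constructor
    · exact Nat.mul_pos (by omega) (by omega)
    · calc p.1 * p.2 ≤ (2 * x) * (2 * x) := Nat.mul_le_mul (by omega) (by omega)
        _ = X := by rw [hX]; ring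
  set b := LSP_b I J lam with hb
  -- the left side
  have hfull : ∀ (u v r : ℕ) (ψ : DirichletCharacter ℂ r),
      ∑ l ∈ Ioc (u : ℤ) v, (lam l : ℂ) * ψ (l : ZMod r) =
      ∑ n ∈ Ioc u v with Nat.Coprime n 1, (lam n : ℂ) * ψ (n : ZMod r) := by
    intro u v r ψ
    have h1 := LSP_cast u v 1 (fun l => (lam l : ℂ) * ψ (l : ZMod r))
    have h2 : (Ioc (u : ℤ) v).filter (fun l => IsCoprime l ((1 : ℕ) : ℤ)) = Ioc (u : ℤ) v := by
      apply filter_true_of_mem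
      intro l _
      rw [Nat.cast_one]
      exact isCoprime_one_right
    rw [h2] at h1
    rw [h1]
    refine sum_congr rfl fun n _ => ?_
    rw [Int.cast_natCast]
  have hleft : ∀ D : ℕ, ∀ χ : DirichletCharacter ℂ D,
      ‖∑ l ∈ Ioc (pt x K i : ℤ) (pt x K (i + 1)), (lam l : ℂ) * χ (l : ZMod D)‖ ^ 2 *
      ‖∑ l ∈ Ioc (pt x K j : ℤ) (pt x K (j + 1)), (lam l : ℂ) * χ (l : ZMod D)‖ ^ 2 =
      ‖∑ n ∈ Ioc 0 X, b n * χ (n : ZMod D)‖ ^ 2 := by
    intro D χ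
    rw [← mul_pow, ← norm_mul, hfull, hfull, LSP_mul I J lam X 1 D χ hIJ]
    congr 2
    have h2 : (Ioc 0 X).filter (fun n => Nat.Coprime n 1) = Ioc 0 X :=
      filter_true_of_mem fun n _ => Nat.coprime_one_right n
    rw [h2]
  have hL : ∑ D ∈ Icc 1 D₁, 1 / (Nat.totient D : ℝ) * ∑ χ : DirichletCharacter ℂ D,
      ‖∑ l ∈ Ioc (pt x K i : ℤ) (pt x K (i + 1)), (lam l : ℂ) * χ (l : ZMod D)‖ ^ 2 *
      ‖∑ l ∈ Ioc (pt x K j : ℤ) (pt x K (j + 1)), (lam l : ℂ) * χ (l : ZMod D)‖ ^ 2 =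
      ∑ D ∈ Icc 1 D₁, 1 / (Nat.totient D : ℝ) * ∑ χ : DirichletCharacter ℂ D,
        ‖∑ n ∈ Ioc 0 X, b n * χ (n : ZMod D)‖ ^ 2 := by
    refine sum_congr rfl fun D _ => ?_
    congr 1
    exact sum_congr rfl fun χ _ => hleft D χ
  rw [hL]
  refine (hLS1 D₁ X b).trans ?_
  -- the mean square of b
  have hx1 : (1 : ℝ) ≤ x := by exact_mod_cast hx
  have hlx : 0 ≤ Real.log x := Real.log_nonneg hx1
  have hbsq : ∑ n ∈ Ioc 0 X, ‖b n‖ ^ 2 ≤ 108 * (x ^ 2 * M ^ 4 * (1 + Real.log x) ^ 3) := by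
    have h1 : ∑ n ∈ Ioc 0 X, ‖b n‖ ^ 2 ≤ ∑ n ∈ Ioc 0 X, M ^ 4 * Pool.Agent.helper85.BVP.tau n ^ 2 := by
      refine sum_le_sum fun n hn => ?_
      rw [mem_Ioc] at hn
      calc ‖b n‖ ^ 2 ≤ (M ^ 2 * Pool.Agent.helper85.BVP.tau n) ^ 2 :=
            pow_le_pow_left₀ (norm_nonneg _) (LSP_bb I J lam M hM n hn.1) 2
        _ = _ := by ring
    rw [← mul_sum] at h1
    have h2 := Pool.Agent.helper85.BVP.sum_tau_sq_le X
    have h3 : 1 + Real.log (X : ℝ) ≤ 3 * (1 + Real.log x) := by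
      rw [hX]
      push_cast
      rw [Real.log_mul (by norm_num) (by positivity), Real.log_pow]
      have h4 : Real.log 4 ≤ 2 := by
        have h5 : Real.log 4 = 2 * Real.log 2 := by
          rw [show (4 : ℝ) = 2 ^ 2 by norm_num, Real.log_pow]; norm_num
        rw [h5]
        linarith [Real.log_two_lt_d9]
      push_cast
      linarith
    have h6 : 0 ≤ 1 + Real.log (X : ℝ) := by
      have := Real.log_natCast_nonneg X
      linarith
    calc ∑ n ∈ Ioc 0 X, ‖b n‖ ^ 2 ≤ M ^ 4 * (X * (1 + Real.log X) ^ 3) :=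
          h1.trans (mul_le_mul_of_nonneg_left h2 (by positivity))
      _ ≤ M ^ 4 * (X * (3 * (1 + Real.log x)) ^ 3) := by
          refine mul_le_mul_of_nonneg_left ?_ (by positivity)
          refine mul_le_mul_of_nonneg_left ?_ (by positivity)
          exact pow_le_pow_left₀ h6 h3 3
      _ = 108 * (x ^ 2 * M ^ 4 * (1 + Real.log x) ^ 3) := by
          rw [hX]
          push_cast
          ring
  set B := (x : ℝ) ^ 2 * M ^ 4 * (1 + Real.log x) ^ 3 with hB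
  have hB0 : 0 ≤ B := by positivity
  have hR0 : (0 : ℝ) < R₀ := by exact_mod_cast hR₀
  -- one k
  have hk : ∀ k ∈ Icc 1 D₁, ∑ r ∈ Icc 1 (D₁ / k), 1 / (Nat.totient r : ℝ) *
        ∑ ψ : DirichletCharacter ℂ r with ψ.IsPrimitive,
          ‖∑ n ∈ Ioc 0 X with Nat.Coprime n k, b n * ψ (n : ZMod r)‖ ^ 2 ≤
      (1 + 432 * C₂) * ((D₁ + (x : ℝ) ^ 2 / R₀) * B + R₀ * S ^ 4) := by
    intro k hk
    rw [mem_Icc] at hk
    set G : ℕ → ℝ := fun r => 1 / (Nat.totient r : ℝ) *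
        ∑ ψ : DirichletCharacter ℂ r with ψ.IsPrimitive,
          ‖∑ n ∈ Ioc 0 X with Nat.Coprime n k, b n * ψ (n : ZMod r)‖ ^ 2 with hG
    have hG0 : ∀ r, 0 ≤ G r := fun r =>
      mul_nonneg (by positivity) (sum_nonneg fun _ _ => by positivity)
    have hsmall : ∀ r ∈ Icc 1 R₀, G r ≤ S ^ 4 := by
      intro r hr
      rw [mem_Icc] at hr
      have hr0 : 0 < r := hr.1
      have hφ : (0 : ℝ) < Nat.totient r := by exact_mod_cast Nat.totient_pos.mpr hr0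
      have h1 : ∀ ψ ∈ (univ : Finset (DirichletCharacter ℂ r)).filter (fun ψ => ψ.IsPrimitive),
          ‖∑ n ∈ Ioc 0 X with Nat.Coprime n k, b n * ψ (n : ZMod r)‖ ^ 2 ≤ S ^ 4 := by
        intro ψ hψ
        have hψ' := (mem_filter.1 hψ).2
        rw [← LSP_mul I J lam X k r ψ hIJ, norm_mul]
        have a1 := hSW r k hr.1 (by exact_mod_cast hr.2) hk.1 (hk.2.trans hDx) ψ hψ'
          (pt x K i) (pt x K (i + 1)) i1 i2 i3
        have a2 := hSW r k hr.1 (by exact_mod_cast hr.2) hk.1 (hk.2.trans hDx) ψ hψ'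
          (pt x K j) (pt x K (j + 1)) j1 j2 j3
        rw [LSP_cast _ _ _ (fun l => (lam l : ℂ) * ψ (l : ZMod r))] at a1 a2
        simp only [Int.cast_natCast] at a1 a2
        have hS0 : 0 ≤ S := (norm_nonneg _).trans a1
        calc (‖∑ n ∈ I with Nat.Coprime n k, (lam n : ℂ) * ψ (n : ZMod r)‖ *
              ‖∑ n ∈ J with Nat.Coprime n k, (lam n : ℂ) * ψ (n : ZMod r)‖) ^ 2
            ≤ (S * S) ^ 2 := by
              refine pow_le_pow_left₀ (by positivity) ?_ 2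
              exact mul_le_mul a1 a2 (norm_nonneg _) hS0
          _ = S ^ 4 := by ring
      have h2 := Finset.sum_le_card_nsmul _ _ _ h1
      rw [nsmul_eq_mul] at h2
      have hS4 : 0 ≤ S ^ 4 := by positivity
      calc G r ≤ 1 / (Nat.totient r : ℝ) * ((Nat.totient r : ℝ) * S ^ 4) := by
            refine mul_le_mul_of_nonneg_left (h2.trans ?_) (by positivity)
            exact mul_le_mul_of_nonneg_right (LSP_card r hr0) hS4
        _ = S ^ 4 := by field_simp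
    have hlarge : ∑ r ∈ Ioc R₀ (D₁ / k), G r ≤ 432 * C₂ * ((D₁ + (x : ℝ) ^ 2 / R₀) * B) := by
      have h1 := hLS2 (D₁ / k) R₀ X (fun n => if Nat.Coprime n k then b n else 0) hR₀
      have h2 : ∑ r ∈ Ioc R₀ (D₁ / k), G r = ∑ r ∈ Ioc R₀ (D₁ / k), 1 / (Nat.totient r : ℝ) *
          ∑ ψ : DirichletCharacter ℂ r with ψ.IsPrimitive,
            ‖∑ n ∈ Ioc 0 X, (if Nat.Coprime n k then b n else 0) * ψ (n : ZMod r)‖ ^ 2 := by
        refine sum_congr rfl fun r _ => ?_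
        rw [hG]
        simp only
        congr 1
        refine sum_congr rfl fun ψ _ => ?_
        congr 2
        rw [sum_filter]
        refine sum_congr rfl fun n _ => ?_
        rw [ite_mul, zero_mul]
      rw [h2]
      refine h1.trans ?_
      have h3 : ∑ n ∈ Ioc 0 X, ‖(if Nat.Coprime n k then b n else 0)‖ ^ 2 ≤ 108 * B := by
        refine le_trans (sum_le_sum fun n _ => ?_) hbsq
        split_ifs
        · exact le_rfl
        · rw [norm_zero, zero_pow (by norm_num)]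
          positivity
      have h4 : ((D₁ / k : ℕ) : ℝ) ≤ D₁ := by exact_mod_cast Nat.div_le_self D₁ k
      have h5 : (X : ℝ) / R₀ + ((D₁ / k : ℕ) : ℝ) ≤ 4 * (D₁ + (x : ℝ) ^ 2 / R₀) := by
        have h6 : (X : ℝ) / R₀ = 4 * ((x : ℝ) ^ 2 / R₀) := by
          rw [hX]
          push_cast
          ring
        rw [h6]
        have h7 : (0 : ℝ) ≤ D₁ := by positivity
        linarith
      calc C₂ * ((X : ℝ) / R₀ + ((D₁ / k : ℕ) : ℝ)) *
            ∑ n ∈ Ioc 0 X, ‖(if Nat.Coprime n k then b n else 0)‖ ^ 2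
          ≤ C₂ * (4 * (D₁ + (x : ℝ) ^ 2 / R₀)) * (108 * B) := by
            refine mul_le_mul ?_ h3 (sum_nonneg fun _ _ => by positivity) (by positivity)
            exact mul_le_mul_of_nonneg_left h5 hC₂.le
        _ = 432 * C₂ * ((D₁ + (x : ℝ) ^ 2 / R₀) * B) := by ring
    have hS4 : 0 ≤ S ^ 4 := by positivity
    have hsub : Icc 1 (D₁ / k) ⊆ Icc 1 R₀ ∪ Ioc R₀ (D₁ / k) := by
      intro r hr
      rw [mem_Icc] at hr
      rw [mem_union, mem_Icc, mem_Ioc]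
      omega
    have hDB : 0 ≤ (D₁ + (x : ℝ) ^ 2 / R₀) * B := by positivity
    have hRS : 0 ≤ (R₀ : ℝ) * S ^ 4 := by positivity
    calc ∑ r ∈ Icc 1 (D₁ / k), G r ≤ ∑ r ∈ Icc 1 R₀ ∪ Ioc R₀ (D₁ / k), G r :=
          sum_le_sum_of_subset_of_nonneg hsub fun r _ _ => hG0 r
      _ ≤ ∑ r ∈ Icc 1 R₀, G r + ∑ r ∈ Ioc R₀ (D₁ / k), G r := by
          rw [← Finset.sum_union_inter]
          have : 0 ≤ ∑ r ∈ Icc 1 R₀ ∩ Ioc R₀ (D₁ / k), G r := sum_nonneg fun r _ => hG0 r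
          linarith
      _ ≤ R₀ * S ^ 4 + 432 * C₂ * ((D₁ + (x : ℝ) ^ 2 / R₀) * B) := by
          refine add_le_add ?_ hlarge
          refine (Finset.sum_le_card_nsmul _ _ _ hsmall).trans ?_
          rw [nsmul_eq_mul, Nat.card_Icc, Nat.add_sub_cancel]
      _ ≤ _ := by nlinarith [mul_nonneg (mul_nonneg (by norm_num : (0 : ℝ) ≤ 432) hC₂.le) hRS]
  have hsum := GD.BV1_sum_inv D₁ hD₁
  have hlD : 0 ≤ Real.log D₁ := Real.log_natCast_nonneg D₁
  have hS4 : 0 ≤ S ^ 4 := by positivity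
  set Y := (1 + 432 * C₂) * ((D₁ + (x : ℝ) ^ 2 / R₀) * B + R₀ * S ^ 4) with hY
  have hY0 : 0 ≤ Y := by positivity
  calc _ ≤ ∑ k ∈ Icc 1 D₁, 1 / (Nat.totient k : ℝ) * Y :=
        sum_le_sum fun k hk' => mul_le_mul_of_nonneg_left (hk k hk') (by positivity)
    _ = (∑ k ∈ Icc 1 D₁, 1 / (Nat.totient k : ℝ)) * Y := by rw [sum_mul]
    _ ≤ (Real.exp 30 * (1 + Real.log D₁)) * Y := mul_le_mul_of_nonneg_right hsum hY0
    _ = _ := by rw [hY]; ring

end Pool.Agent.FI
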