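import Pool.Agent.helper95.FI.SpecV

set_option autoImplicit false

open Finset

namespace Pool.Agent.FI

private theorem PMVx_big (k : ℕ) (κ : ℝ) (hκ : 0 < κ) :
    ∃ N₀ : ℕ, ∀ N : ℕ, N₀ ≤ N → Real.log N ^ k ≤ κ * Real.sqrt N := by
  have h1 := ((isLittleO_log_rpow_rpow_atTop (k : ℝ) (show (0 : ℝ) < 1 / 2 by norm_num))).bound hκ
  have h2 := tendsto_natCast_atTop_atTop (R := ℝ) |>.eventually h1
  obtain ⟨N₀, h3⟩ := Filter.eventually_atTop.1 h2
  refine ⟨N₀ + 1, fun N hN => ?_⟩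
  have h4 := h3 N (by omega)
  have hN1 : (1 : ℝ) ≤ N := by exact_mod_cast (by omega : 1 ≤ N)
  have hl := Real.log_nonneg hN1
  rw [Real.rpow_natCast, Real.norm_of_nonneg (pow_nonneg hl k), ← Real.sqrt_eq_rpow,
    Real.norm_of_nonneg (Real.sqrt_nonneg _)] at h4
  exact h4

private theorem PMVx_Zr (y : ℝ) (hy : 2 < y) : ∃ r : ℕ, y ≤ Zr r ∧ (Zr r : ℝ) ≤ y ^ 2 := by
  have hex : ∃ r : ℕ, y ≤ (Zr r : ℝ) := by
    refine ⟨⌈y⌉₊, (Nat.le_ceil y).trans ?_⟩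
    have h1 : ⌈y⌉₊ ≤ Zr ⌈y⌉₊ := by
      unfold Zr
      calc ⌈y⌉₊ ≤ 2 ^ ⌈y⌉₊ := Nat.lt_two_pow_self.le
        _ ≤ 2 ^ 2 ^ ⌈y⌉₊ := Nat.lt_two_pow_self.le
    exact_mod_cast h1
  classical
  have h2 := Nat.find_spec hex
  set r := Nat.find hex with hr
  have hr0 : r ≠ 0 := by
    intro h
    rw [h] at h2
    unfold Zr at h2
    norm_num at h2
    linarith
  obtain ⟨s, hs⟩ := Nat.exists_eq_succ_of_ne_zero hr0
  have h3 : ¬ y ≤ (Zr s : ℝ) := Nat.find_min hex (by omega)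
  push Not at h3
  refine ⟨r, h2, ?_⟩
  have h4 : Zr r = Zr s ^ 2 := by
    rw [hs]
    unfold Zr
    rw [← pow_mul, Nat.succ_eq_add_one, pow_succ]
  rw [h4]
  push_cast
  exact pow_le_pow_left₀ (Nat.cast_nonneg _) h3.le 2

private theorem PMVx_count (x A : ℕ) (hA : A ≤ x) :
    #((PZ x A).filter fun ζ => ζ.2.toNat.Prime ∧ (nn ζ).Prime) ≤
      ∑ a ∈ (Icc 1 A).filter Odd, Pool.Agent.FIP.cta x a := by
  classical
  unfold Pool.Agent.FIP.cta
  rw [← Finset.card_sigma]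
  refine Finset.card_le_card_of_injOn (fun ζ => ⟨ζ.1.toNat, ζ.2.toNat⟩) ?_ ?_
  · intro ζ hζ
    have h1 := mem_filter.1 hζ
    obtain ⟨h2, h3, h4⟩ := h1
    unfold PZ at h2
    rw [mem_filter, mem_product, mem_Icc, mem_Ioc] at h2
    obtain ⟨⟨⟨a1, a2⟩, a3, a4⟩, a5, -⟩ := h2
    have hAx : (A : ℤ) ≤ x := by exact_mod_cast hA
    obtain ⟨a, ha⟩ : ∃ a : ℕ, ζ.1 = a := ⟨ζ.1.toNat, (Int.toNat_of_nonneg (by omega)).symm⟩
    obtain ⟨p, hp⟩ : ∃ p : ℕ, ζ.2 = p :=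
      ⟨ζ.2.toNat, (Int.toNat_of_nonneg (by have : (0 : ℤ) ≤ x := Int.natCast_nonneg x; omega)).symm⟩
    rw [ha] at a1 a2 a5
    rw [hp] at a3 a4 h3
    rw [Int.toNat_natCast] at h3
    have hlt : a ^ 2 ≤ 8 * p ^ 2 := by
      have : a ≤ p := by omega
      nlinarith
    have hnn : nn ζ = 8 * p ^ 2 - a ^ 2 := by
      unfold nn N8
      rw [ha, hp]
      zify [hlt]
      rw [abs_of_nonpos]
      · ring
      · have : ((a : ℤ)) ^ 2 ≤ 8 * (p : ℤ) ^ 2 := by exact_mod_cast hlt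
        linarith
    rw [Finset.mem_coe, mem_sigma, mem_filter, mem_filter, mem_Icc, mem_Ioc]
    show ((1 ≤ ζ.1.toNat ∧ ζ.1.toNat ≤ A) ∧ Odd ζ.1.toNat) ∧
      (x < ζ.2.toNat ∧ ζ.2.toNat ≤ 2 * x) ∧ ζ.2.toNat.Prime ∧ (8 * ζ.2.toNat ^ 2 - ζ.1.toNat ^ 2).Prime
    rw [ha, hp, Int.toNat_natCast, Int.toNat_natCast, ← hnn]
    refine ⟨⟨⟨by omega, by omega⟩, ?_⟩, ⟨by omega, by omega⟩, h3, h4⟩
    rw [Nat.odd_iff]
    omega
  · intro ζ hζ ζ' hζ' h
    have h1 := (mem_filter.1 hζ).1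
    have h2 := (mem_filter.1 hζ').1
    unfold PZ at h1 h2
    rw [mem_filter, mem_product, mem_Icc, mem_Ioc] at h1 h2
    have h3 : ζ.1.toNat = ζ'.1.toNat := congrArg Sigma.fst h
    have h4 : ζ.2.toNat = ζ'.2.toNat := by
      have := congrArg (fun s : (Σ _ : ℕ, ℕ) => s.2) h
      exact this
    have hx0 : (0 : ℤ) ≤ x := Int.natCast_nonneg x
    exact Prod.ext (by omega) (by omega)

theorem PMVx (hRED : RED_stmt) (hPPW : PPW_stmt) (hMTM : MTM_stmt) : PMVx_stmt := by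
  classical
  obtain ⟨c, hc, hMTM⟩ := hMTM
  obtain ⟨x₃, hPPW⟩ := hPPW
  refine ⟨c / 12, by positivity, fun K => ?_⟩
  obtain ⟨C₅, x₁, hC₅, hRED⟩ := hRED (K + 1)
  obtain ⟨x₂, hMTM⟩ := hMTM C₅ K
  obtain ⟨x₄, hbig⟩ := PMVx_big K (c / 4) (by positivity)
  refine ⟨x₁ + x₂ + x₃ + x₄ + ⌈Real.exp (4 + 4 / c)⌉₊, fun x hx A hA1 hA2 => ?_⟩
  have hxe : Real.exp (4 + 4 / c) ≤ (x : ℝ) := (Nat.le_ceil _).trans (by exact_mod_cast (by omega))
  have hx0 : (0 : ℝ) < x := lt_of_lt_of_le (Real.exp_pos _) hxe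
  have hL : 4 + 4 / c ≤ Real.log x := by rw [Real.le_log_iff_exp_le hx0]; exact hxe
  have hc4 : 0 < 4 / c := by positivity
  have hbx := hbig x (by omega)
  set L := Real.log x with hLd
  have hL4 : 4 ≤ L := by linarith
  have hL0 : 0 < L := by linarith
  have hy : 2 < L ^ C₅ := by
    calc (2 : ℝ) < L := by linarith
      _ = L ^ 1 := (pow_one L).symm
      _ ≤ L ^ C₅ := pow_le_pow_right₀ (by linarith) hC₅
  obtain ⟨r, hr1, hr2⟩ := PMVx_Zr (L ^ C₅) hy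
  have hr2' : (Zr r : ℝ) ≤ L ^ (2 * C₅) := by
    rw [mul_comm 2 C₅, pow_mul]
    exact hr2
  have b1 := hRED x (by omega) r hr1 hr2' A hA2
  have b2 := hMTM x (by omega) r hr1 hr2' A hA1 hA2
  have b3 := hPPW x (by omega) A hA2
  -- decomposition
  have hZ : ∀ ζ ∈ PZ x A, (x : ℤ) < ζ.2 ∧ ζ.2 ≤ 2 * x ∧ 1 ≤ ζ.1 ∧ ζ.1 ≤ A := by
    intro ζ hζ
    unfold PZ at hζ
    rw [mem_filter, mem_product, mem_Icc, mem_Ioc] at hζ
    exact ⟨hζ.1.2.1, hζ.1.2.2, hζ.1.1.1, hζ.1.1.2⟩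
  have hnu0 : ∀ l, 0 ≤ nu r l := by
    intro l
    unfold nu
    split_ifs
    · unfold kap
      refine Finset.prod_nonneg fun p hp => ?_
      have h1 := (mem_filter.1 hp).2.two_le
      have h2 : (2 : ℝ) ≤ p := by exact_mod_cast h1
      have h3 : 1 / (p : ℝ) ≤ 1 := by rw [div_le_one (by linarith)]; linarith
      exact inv_nonneg.2 (by linarith)
    · exact le_rfl
  have hsum1 : ∑ ζ ∈ PZ x A, th ζ.2 * ArithmeticFunction.vonMangoldt (nn ζ) =
      ∑ ζ ∈ PZ x A, lam x r ζ.2 * ArithmeticFunction.vonMangoldt (nn ζ) +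
        ∑ ζ ∈ PZ x A, nu r ζ.2 * ArithmeticFunction.vonMangoldt (nn ζ) := by
    rw [← Finset.sum_add_distrib]
    refine Finset.sum_congr rfl fun ζ hζ => ?_
    obtain ⟨h1, h2, -⟩ := hZ ζ hζ
    unfold lam
    rw [if_pos ⟨h1, h2⟩]
    ring
  have hsum2 : ∑ ζ ∈ PZ x A, nu r ζ.2 * (if (nn ζ).Prime then Real.log (nn ζ) else 0) ≤
      ∑ ζ ∈ PZ x A, nu r ζ.2 * ArithmeticFunction.vonMangoldt (nn ζ) := by
    refine Finset.sum_le_sum fun ζ _ => mul_le_mul_of_nonneg_left ?_ (hnu0 _)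
    split_ifs with h
    · rw [ArithmeticFunction.vonMangoldt_apply_prime h]
    · exact ArithmeticFunction.vonMangoldt_nonneg
  have hsum3 : ∑ ζ ∈ PZ x A, th ζ.2 * ArithmeticFunction.vonMangoldt (nn ζ) =
      ∑ ζ ∈ PZ x A with (nn ζ).Prime, th ζ.2 * ArithmeticFunction.vonMangoldt (nn ζ) +
      ∑ ζ ∈ PZ x A with ¬ (nn ζ).Prime, th ζ.2 * ArithmeticFunction.vonMangoldt (nn ζ) :=
    (Finset.sum_filter_add_sum_filter_not _ _ _).symm
  have hl2 : Real.log 2 ≤ 1 := by linarith [Real.log_two_lt_d9]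
  have hsum4 : ∑ ζ ∈ PZ x A with (nn ζ).Prime, th ζ.2 * ArithmeticFunction.vonMangoldt (nn ζ) ≤
      (#((PZ x A).filter fun ζ => ζ.2.toNat.Prime ∧ (nn ζ).Prime) : ℝ) * (6 * L ^ 2) := by
    have h1 : ∑ ζ ∈ PZ x A with (nn ζ).Prime, th ζ.2 * ArithmeticFunction.vonMangoldt (nn ζ) =
        ∑ ζ ∈ (PZ x A).filter (fun ζ => ζ.2.toNat.Prime ∧ (nn ζ).Prime),
          th ζ.2 * ArithmeticFunction.vonMangoldt (nn ζ) := by
      symm
      refine Finset.sum_subset ?_ ?_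
      · intro ζ hζ
        rw [mem_filter] at hζ ⊢
        exact ⟨hζ.1, hζ.2.2⟩
      · intro ζ hζ hn
        rw [mem_filter] at hζ hn
        have h2 : ¬ ζ.2.toNat.Prime := fun h => hn ⟨hζ.1, h, hζ.2⟩
        unfold th
        rw [if_neg h2, zero_mul]
    rw [h1, ← nsmul_eq_mul]
    refine Finset.sum_le_card_nsmul _ _ _ fun ζ hζ => ?_
    rw [mem_filter] at hζ
    obtain ⟨hζ1, hζ2, hζ3⟩ := hζ
    obtain ⟨h2, h3, h4, h5⟩ := hZ ζ hζ1
    have hAx : (A : ℤ) ≤ x := by exact_mod_cast hA2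
    have hx0' : (0 : ℤ) ≤ x := Int.natCast_nonneg x
    have h6 : th ζ.2 ≤ 2 * L := by
      unfold th
      rw [if_pos hζ2]
      have h7 : (ζ.2 : ℝ) ≤ 2 * x := by exact_mod_cast h3
      have h8 : (0 : ℝ) < (ζ.2 : ℝ) := by
        have : (0 : ℤ) < ζ.2 := by omega
        exact_mod_cast this
      calc Real.log ζ.2 ≤ Real.log (2 * x) := Real.log_le_log h8 h7
        _ = Real.log 2 + L := Real.log_mul (by norm_num) hx0.ne'
        _ ≤ 2 * L := by linarith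
    have h9 : ArithmeticFunction.vonMangoldt (nn ζ) ≤ 3 * L := by
      refine ArithmeticFunction.vonMangoldt_le_log.trans ?_
      have h10 : (nn ζ : ℤ) ≤ 32 * (x : ℤ) ^ 2 := by
        unfold nn N8
        rw [Int.natCast_natAbs, abs_le]
        constructor <;> nlinarith
      have h11 : (nn ζ : ℝ) ≤ 32 * (x : ℝ) ^ 2 := by exact_mod_cast h10
      have h12 : (0 : ℝ) < nn ζ := by exact_mod_cast hζ3.pos
      calc Real.log (nn ζ) ≤ Real.log (32 * (x : ℝ) ^ 2) := Real.log_le_log h12 h11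
        _ = Real.log 32 + 2 * L := by
            rw [Real.log_mul (by norm_num) (by positivity), Real.log_pow]
            norm_num
            rfl
        _ ≤ 3 * L := by
            have h13 : Real.log 32 = 5 * Real.log 2 := by
              rw [show (32 : ℝ) = 2 ^ 5 by norm_num, Real.log_pow]
              norm_num
            have h14 : Real.log 2 ≤ 0.7 := by linarith [Real.log_two_lt_d9]
            rw [h13]
            linarith
    calc th ζ.2 * ArithmeticFunction.vonMangoldt (nn ζ) ≤ (2 * L) * (3 * L) :=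
          mul_le_mul h6 h9 ArithmeticFunction.vonMangoldt_nonneg (by positivity)
      _ = 6 * L ^ 2 := by ring
  have hcount := PMVx_count x A hA2
  -- the errors
  have hA0 : (x : ℝ) ≤ A * L ^ K := by
    rw [div_le_iff₀ (by positivity)] at hA1
    exact hA1
  have hAnn : (0 : ℝ) ≤ A := by positivity
  have herr1 : (x : ℝ) ^ 2 / L ^ (K + 1) ≤ c / 4 * (A * x) := by
    rw [div_le_iff₀ (by positivity), pow_succ]
    have h1 : 1 ≤ c / 4 * L := by
      have h2 : c / 4 * (4 / c) = 1 := by field_simp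
      have h3 : 0 < c / 4 := by positivity
      nlinarith
    calc (x : ℝ) ^ 2 = x * x := sq _
      _ ≤ x * (A * L ^ K) := mul_le_mul_of_nonneg_left hA0 hx0.le
      _ = 1 * (x * (A * L ^ K)) := (one_mul _).symm
      _ ≤ (c / 4 * L) * (x * (A * L ^ K)) := mul_le_mul_of_nonneg_right h1 (by positivity)
      _ = c / 4 * (A * x) * (L ^ K * L) := by ring
  have herr2 : (x : ℝ) ^ (3 / 2 : ℝ) ≤ c / 4 * (A * x) := by
    have h1 : (x : ℝ) ^ (3 / 2 : ℝ) = x * Real.sqrt x := by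
      rw [Real.sqrt_eq_rpow, ← Real.rpow_one_add' hx0.le (by norm_num)]
      norm_num
    rw [h1]
    have hs0 : 0 < Real.sqrt x := Real.sqrt_pos.2 hx0
    have hss : Real.sqrt x * Real.sqrt x = x := Real.mul_self_sqrt hx0.le
    have h2 : Real.sqrt x ≤ c / 4 * A := by
      have h3 : Real.sqrt x * Real.sqrt x ≤ Real.sqrt x * (c / 4 * A) := by
        rw [hss]
        calc (x : ℝ) ≤ A * L ^ K := hA0
          _ ≤ A * (c / 4 * Real.sqrt x) := mul_le_mul_of_nonneg_left hbx hAnn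
          _ = Real.sqrt x * (c / 4 * A) := by ring
      exact le_of_mul_le_mul_left h3 hs0
    calc (x : ℝ) * Real.sqrt x ≤ x * (c / 4 * A) := mul_le_mul_of_nonneg_left h2 hx0.le
      _ = c / 4 * (A * x) := by ring
  have b1' := (abs_le.1 b1).1
  have hkey : c / 2 * (A * x) ≤
      (#((PZ x A).filter fun ζ => ζ.2.toNat.Prime ∧ (nn ζ).Prime) : ℝ) * (6 * L ^ 2) := by
    linarith
  have hcount' : (#((PZ x A).filter fun ζ => ζ.2.toNat.Prime ∧ (nn ζ).Prime) : ℝ) ≤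
      ∑ a ∈ (Icc 1 A).filter Odd, (Pool.Agent.FIP.cta x a : ℝ) := by exact_mod_cast hcount
  have hfin : c / 2 * (A * x) ≤ (∑ a ∈ (Icc 1 A).filter Odd, (Pool.Agent.FIP.cta x a : ℝ)) * (6 * L ^ 2) :=
    hkey.trans (mul_le_mul_of_nonneg_right hcount' (by positivity))
  have hgoal : c / 12 * (A * x / L ^ 2) = c / 2 * (A * x) / (6 * L ^ 2) := by
    field_simp
    ring
  rw [hgoal, div_le_iff₀ (by positivity)]
  exact hfin

end Pool.Agent.FI
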