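import Pool.Agent.helper95.FI.SpecV

set_option autoImplicit false

open Finset

namespace Pool.Agent.FI

private theorem RED_big (k : ℕ) : ∃ N₀ : ℕ, ∀ N : ℕ, N₀ ≤ N → 4 * Real.log N ^ k ≤ (N : ℝ) := by
  have h1 := (Real.isLittleO_pow_log_id_atTop (n := k)).bound (show (0 : ℝ) < 1 / 4 by norm_num)
  have h2 := tendsto_natCast_atTop_atTop (R := ℝ) |>.eventually h1
  obtain ⟨N₀, h3⟩ := Filter.eventually_atTop.1 h2
  refine ⟨N₀ + 1, fun N hN => ?_⟩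
  have h4 := h3 N (by omega)
  have hN1 : (1 : ℝ) ≤ N := by exact_mod_cast (by omega : 1 ≤ N)
  rw [Real.norm_of_nonneg (pow_nonneg (Real.log_nonneg hN1) k), id,
    Real.norm_of_nonneg (by linarith)] at h4
  linarith

private theorem RED_nn (x A : ℕ) (hA : A ≤ x) (ζ : ℤ × ℤ) (hζ : ζ ∈ PZ x A) : x < nn ζ := by
  classical
  unfold PZ at hζ
  rw [mem_filter, mem_product, mem_Icc, mem_Ioc] at hζ
  obtain ⟨⟨⟨a1, a2⟩, a3, a4⟩, -⟩ := hζ
  have hAx : (A : ℤ) ≤ x := by exact_mod_cast hA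
  have h1 : (x : ℤ) < 8 * ζ.2 ^ 2 - ζ.1 ^ 2 := by nlinarith
  unfold nn N8
  have h2 : ((ζ.1 ^ 2 - 8 * ζ.2 ^ 2).natAbs : ℤ) = 8 * ζ.2 ^ 2 - ζ.1 ^ 2 := by
    rw [Int.natCast_natAbs, abs_of_neg (by have : (0 : ℤ) ≤ x := Int.natCast_nonneg x; linarith)]
    ring
  have h3 : (x : ℤ) < ((ζ.1 ^ 2 - 8 * ζ.2 ^ 2).natAbs : ℤ) := by rw [h2]; exact h1
  exact_mod_cast h3

private theorem RED_swap (P : Finset (ℤ × ℤ)) (w : ℤ × ℤ → ℝ) (F : ℕ → ℤ × ℤ → ℝ) (W : ℕ)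
    (hpos : ∀ ζ ∈ P, 0 < nn ζ) :
    ∑ ζ ∈ P, w ζ * ∑ d ∈ (nn ζ).divisors with d ≤ W, F d ζ =
      ∑ d ∈ Icc 1 W, ∑ ζ ∈ P with d ∣ nn ζ, w ζ * F d ζ := by
  have h1 : ∀ ζ ∈ P, w ζ * ∑ d ∈ (nn ζ).divisors with d ≤ W, F d ζ =
      ∑ d ∈ Icc 1 W, if d ∣ nn ζ then w ζ * F d ζ else 0 := by
    intro ζ hζ
    have h2 : (nn ζ).divisors.filter (fun d => d ≤ W) = (Icc 1 W).filter fun d => d ∣ nn ζ := by
      ext d
      rw [mem_filter, mem_filter, Nat.mem_divisors, mem_Icc]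
      constructor
      · rintro ⟨⟨h3, h4⟩, h5⟩
        exact ⟨⟨Nat.pos_of_dvd_of_pos h3 (hpos ζ hζ), h5⟩, h3⟩
      · rintro ⟨⟨h3, h4⟩, h5⟩
        exact ⟨⟨h5, (hpos ζ hζ).ne'⟩, h4⟩
    rw [h2, ← Finset.sum_filter, Finset.mul_sum]
  rw [Finset.sum_congr rfl h1, Finset.sum_comm]
  refine Finset.sum_congr rfl fun d _ => ?_
  rw [Finset.sum_filter]

private theorem RED_cc (U V q : ℕ) : |cc U V q| ≤ Real.log q := by
  unfold cc
  refine (Finset.abs_sum_le_sum_abs _ _).trans ?_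
  have h1 : ∑ m ∈ q.divisors with m ≤ U ∧ q / m ≤ V,
      |ArithmeticFunction.vonMangoldt m * (ArithmeticFunction.moebius (q / m) : ℝ)| ≤
      ∑ m ∈ q.divisors with m ≤ U ∧ q / m ≤ V, ArithmeticFunction.vonMangoldt m := by
    refine Finset.sum_le_sum fun m _ => ?_
    rw [abs_mul, abs_of_nonneg ArithmeticFunction.vonMangoldt_nonneg]
    refine mul_le_of_le_one_right ArithmeticFunction.vonMangoldt_nonneg ?_
    have h2 : |ArithmeticFunction.moebius (q / m)| ≤ 1 := ArithmeticFunction.abs_moebius_le_one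
    exact_mod_cast h2
  refine h1.trans ?_
  rw [← ArithmeticFunction.vonMangoldt_sum]
  exact Finset.sum_le_sum_of_subset_of_nonneg (Finset.filter_subset _ _)
    fun _ _ _ => ArithmeticFunction.vonMangoldt_nonneg

private theorem RED_cc0 (U V q : ℕ) (hq : U * V < q) : cc U V q = 0 := by
  unfold cc
  rw [Finset.filter_eq_empty_iff.2, Finset.sum_empty]
  intro m hm h
  rw [Nat.mem_divisors] at hm
  have h1 : m * (q / m) ≤ U * V := Nat.mul_le_mul h.1 h.2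
  rw [Nat.mul_div_cancel' hm.1] at h1
  omega

theorem RED (hLMA : LMA_stmt) (hLMS : LMS_stmt) (hVGI : VGI_stmt) (hTI1 : TI1_stmt)
    (hTY2 : TY2_stmt) : RED_stmt := by
  intro B
  obtain ⟨E₁, x₁, hTY2⟩ := hTY2 (B + 1)
  obtain ⟨E₂, x₂, hTI1⟩ := hTI1 (B + 2 * E₁ + 6) (2 * E₁ + 2)
  obtain ⟨x₃, hLMS⟩ := hLMS E₁
  obtain ⟨x₄, hA1⟩ := hLMA E₂ (E₂ + 2 * E₁ + 10) (by omega)
  obtain ⟨x₅, hA2⟩ := hLMA (2 * E₁ + 2) (E₂ + 2 * E₁ + 10) (by omega)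
  obtain ⟨x₆, hbig⟩ := RED_big (2 * E₁ + 1)
  refine ⟨E₂ + 2 * E₁ + 10, x₁ + x₂ + x₃ + x₄ + x₅ + x₆ + ⌈Real.exp 16⌉₊, by omega, ?_⟩
  intro x hx r hr1 hr2 A hA
  have hxe : Real.exp 16 ≤ (x : ℝ) := (Nat.le_ceil _).trans (by exact_mod_cast (by omega))
  have hx0 : (0 : ℝ) < x := lt_of_lt_of_le (Real.exp_pos _) hxe
  have hL : 16 ≤ Real.log x := by rw [Real.le_log_iff_exp_le hx0]; exact hxe
  obtain ⟨hLam, hSA2⟩ := hA1 x (by omega) r hr1 hr2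
  obtain ⟨-, hSA1⟩ := hA2 x (by omega) r hr1 hr2
  have hbx := hbig x (by omega)
  set L := Real.log x with hLd
  have hL0 : 0 < L := by linarith
  have hL1 : 1 ≤ L := by linarith
  set Z := Zr r with hZ
  have hpow : ∀ m n : ℕ, m ≤ n → L ^ m ≤ L ^ n := fun m n h => pow_le_pow_right₀ hL1 h
  -- the parameters
  set U : ℕ := ⌈L ^ E₁⌉₊ with hU
  have hU1 : L ^ E₁ ≤ (U : ℝ) := Nat.le_ceil _
  have hLE : 1 ≤ L ^ E₁ := one_le_pow₀ hL1
  have hU2 : (U : ℝ) ≤ 2 * L ^ E₁ := by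
    have h1 : (U : ℝ) < L ^ E₁ + 1 := Nat.ceil_lt_add_one (by positivity)
    linarith
  have hU0 : 1 ≤ U := by
    have h1 : (1 : ℝ) ≤ (U : ℝ) := hLE.trans hU1
    exact_mod_cast h1
  have hUU : (U : ℝ) * U ≤ 4 * L ^ (2 * E₁) := by
    calc (U : ℝ) * U ≤ (2 * L ^ E₁) * (2 * L ^ E₁) := by gcongr
      _ = 4 * L ^ (2 * E₁) := by rw [two_mul E₁, pow_add]; ring
  have hUUx : (U : ℝ) * U ≤ x := by
    have h1 : 4 * L ^ (2 * E₁) ≤ 4 * L ^ (2 * E₁ + 1) := by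
      have := hpow (2 * E₁) (2 * E₁ + 1) (by omega)
      linarith
    linarith
  have hUUn : U * U ≤ x := by exact_mod_cast hUUx
  have hUx : U ≤ x := (Nat.le_mul_of_pos_left U hU0).trans hUUn
  have hUUD : (U : ℝ) * U ≤ L ^ (2 * E₁ + 2) := by
    have h1 : 0 ≤ L ^ (2 * E₁) := by positivity
    have h2 : (4 : ℝ) ≤ L ^ 2 := by nlinarith
    calc (U : ℝ) * U ≤ 4 * L ^ (2 * E₁) := hUU
      _ ≤ L ^ 2 * L ^ (2 * E₁) := mul_le_mul_of_nonneg_right h2 h1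
      _ = L ^ (2 * E₁ + 2) := by rw [pow_add]; ring
  have hULx : (U : ℝ) * L ^ E₁ ≤ x := by
    calc (U : ℝ) * L ^ E₁ ≤ U * U := mul_le_mul_of_nonneg_left hU1 (by positivity)
      _ ≤ x := hUUx
  have hULZ : (U : ℝ) * L ^ E₁ ≤ Z := by
    calc (U : ℝ) * L ^ E₁ ≤ U * U := mul_le_mul_of_nonneg_left hU1 (by positivity)
      _ ≤ L ^ (2 * E₁ + 2) := hUUD
      _ ≤ L ^ (E₂ + 2 * E₁ + 10) := hpow _ _ (by omega)
      _ ≤ Z := hr1
  have hSW := hLMS x (by omega) Z (lam x r) ((hpow _ _ (by omega)).trans hr1) hLam hSA1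
  -- the three parts
  have hT3 := hTY2 x (by omega) Z (lam x r) ((hpow _ _ (by omega)).trans hr1) hLam hSW A U U hA
    hU1 hU1 hULZ hULx
  have hTI : ∀ q : ℕ, 1 ≤ q → (q : ℝ) ≤ L ^ (2 * E₁ + 2) → ∀ h : ℕ, h ≤ 1 →
      |∑ ζ ∈ PZ x A with q ∣ nn ζ, lam x r ζ.2 * Real.log (nn ζ) ^ h| ≤
        x ^ 2 / L ^ (B + 2 * E₁ + 6) := fun q hq hq2 h hh =>
    hTI1 x (by omega) Z (lam x r) ((hpow _ _ (by omega)).trans hr1) hLam hSA2 A hA q hq hq2 h hh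
  set Y : ℝ := x ^ 2 / L ^ (B + 2 * E₁ + 6) with hY
  have hY0 : 0 ≤ Y := by positivity
  have hnn : ∀ ζ ∈ PZ x A, x < nn ζ := fun ζ hζ => RED_nn x A hA ζ hζ
  have hnn0 : ∀ ζ ∈ PZ x A, 0 < nn ζ := fun ζ hζ => by have := hnn ζ hζ; omega
  set T1 := ∑ ζ ∈ PZ x A, lam x r ζ.2 * ∑ d ∈ (nn ζ).divisors with d ≤ U,
    (ArithmeticFunction.moebius d : ℝ) * Real.log (nn ζ / d : ℝ) with hT1
  set T2 := ∑ ζ ∈ PZ x A, lam x r ζ.2 * ∑ q ∈ (nn ζ).divisors, cc U U q with hT2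
  set T3 := ∑ ζ ∈ PZ x A, lam x r ζ.2 * ∑ m ∈ (nn ζ).divisors with U < m,
    ArithmeticFunction.vonMangoldt m * al U (nn ζ / m) with hT3d
  have hsplit : ∑ ζ ∈ PZ x A, lam x r ζ.2 * ArithmeticFunction.vonMangoldt (nn ζ) = T1 - T2 + T3 := by
    rw [hT1, hT2, hT3d, ← Finset.sum_sub_distrib, ← Finset.sum_add_distrib]
    refine Finset.sum_congr rfl fun ζ hζ => ?_
    have h1 := hnn ζ hζ
    have h2 := (hVGI U U (nn ζ) hU0 hU0 (by omega)).1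
    rw [h2]
    ring
  have hlogd : ∀ d : ℕ, 1 ≤ d → d ≤ x → 0 ≤ Real.log d ∧ Real.log d ≤ L := by
    intro d h1 h2
    exact ⟨Real.log_natCast_nonneg d, Real.log_le_log (by exact_mod_cast h1) (by exact_mod_cast h2)⟩
  have hT1b : |T1| ≤ U * (2 * L * Y) := by
    rw [hT1, RED_swap _ _ _ _ hnn0]
    refine (Finset.abs_sum_le_sum_abs _ _).trans ?_
    have h1 : ∀ d ∈ Icc 1 U, |∑ ζ ∈ PZ x A with d ∣ nn ζ, lam x r ζ.2 *
        ((ArithmeticFunction.moebius d : ℝ) * Real.log (nn ζ / d : ℝ))| ≤ 2 * L * Y := by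
      intro d hd
      rw [mem_Icc] at hd
      have hd0 : (0 : ℝ) < d := by exact_mod_cast hd.1
      have h2 : ∑ ζ ∈ PZ x A with d ∣ nn ζ, lam x r ζ.2 *
          ((ArithmeticFunction.moebius d : ℝ) * Real.log (nn ζ / d : ℝ)) =
          (ArithmeticFunction.moebius d : ℝ) *
            (∑ ζ ∈ PZ x A with d ∣ nn ζ, lam x r ζ.2 * Real.log (nn ζ) ^ 1 -
              Real.log d * ∑ ζ ∈ PZ x A with d ∣ nn ζ, lam x r ζ.2 * Real.log (nn ζ) ^ 0) := by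
        rw [Finset.mul_sum, ← Finset.sum_sub_distrib, Finset.mul_sum]
        refine Finset.sum_congr rfl fun ζ hζ => ?_
        have h3 := hnn0 ζ (mem_filter.1 hζ).1
        have h4 : (0 : ℝ) < nn ζ := by exact_mod_cast h3
        rw [Real.log_div h4.ne' hd0.ne']
        ring
      rw [h2, abs_mul]
      have h5 : |(ArithmeticFunction.moebius d : ℝ)| ≤ 1 := by
        have h6 : |ArithmeticFunction.moebius d| ≤ 1 := ArithmeticFunction.abs_moebius_le_one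
        exact_mod_cast h6
      have hdD : (d : ℝ) ≤ L ^ (2 * E₁ + 2) := by
        have h6 : (d : ℝ) ≤ U := by exact_mod_cast hd.2
        have h7 : (U : ℝ) ≤ U * U := by
          have : (1 : ℝ) ≤ U := by exact_mod_cast hU0
          nlinarith
        linarith
      have h7 := hTI d hd.1 hdD 1 le_rfl
      have h8 := hTI d hd.1 hdD 0 (by omega)
      obtain ⟨h9, h10⟩ := hlogd d hd.1 (hd.2.trans hUx)
      calc _ ≤ 1 * (|∑ ζ ∈ PZ x A with d ∣ nn ζ, lam x r ζ.2 * Real.log (nn ζ) ^ 1| +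
            |Real.log d * ∑ ζ ∈ PZ x A with d ∣ nn ζ, lam x r ζ.2 * Real.log (nn ζ) ^ 0|) :=
            mul_le_mul h5 (abs_sub _ _) (abs_nonneg _) (by norm_num)
        _ ≤ 1 * (Y + L * Y) := by
            rw [abs_mul, abs_of_nonneg h9]
            refine mul_le_mul_of_nonneg_left (add_le_add h7 ?_) (by norm_num)
            exact mul_le_mul h10 h8 (abs_nonneg _) hL0.le
        _ ≤ 2 * L * Y := by nlinarith
    refine (Finset.sum_le_card_nsmul _ _ _ h1).trans ?_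
    rw [nsmul_eq_mul, Nat.card_Icc, Nat.add_sub_cancel]
  have hT2b : |T2| ≤ (U * U) * (L * Y) := by
    have h0 : T2 = ∑ ζ ∈ PZ x A, lam x r ζ.2 *
        ∑ q ∈ (nn ζ).divisors with q ≤ U * U, cc U U q := by
      rw [hT2]
      refine Finset.sum_congr rfl fun ζ _ => ?_
      congr 1
      symm
      apply Finset.sum_filter_of_ne
      intro q _ hq
      by_contra h
      exact hq (RED_cc0 U U q (by omega))
    rw [h0, RED_swap _ (fun ζ => lam x r ζ.2) (fun q _ => cc U U q) _ hnn0]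
    refine (Finset.abs_sum_le_sum_abs _ _).trans ?_
    have h1 : ∀ q ∈ Icc 1 (U * U), |∑ ζ ∈ PZ x A with q ∣ nn ζ, lam x r ζ.2 * cc U U q| ≤ L * Y := by
      intro q hq
      rw [mem_Icc] at hq
      rw [← Finset.sum_mul, abs_mul, mul_comm]
      have hqr : (q : ℝ) ≤ U * U := by exact_mod_cast hq.2
      have h8 := hTI q hq.1 (hqr.trans hUUD) 0 (by omega)
      simp only [pow_zero, mul_one] at h8
      have h9 := RED_cc U U q
      obtain ⟨-, h10⟩ := hlogd q hq.1 (hq.2.trans hUUn)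
      exact mul_le_mul (h9.trans h10) h8 (abs_nonneg _) hL0.le
    refine (Finset.sum_le_card_nsmul _ _ _ h1).trans ?_
    rw [nsmul_eq_mul, Nat.card_Icc, Nat.add_sub_cancel]
    push_cast
    exact le_rfl
  -- conclusion
  have hB0 : 0 < L ^ B := by positivity
  have hE0 : 0 < L ^ (2 * E₁) := by positivity
  have hx2 : (0 : ℝ) ≤ (x : ℝ) ^ 2 := by positivity
  have hLYe : L ^ (2 * E₁) * (16 * (L * Y)) ≤ (x : ℝ) ^ 2 / L ^ B := by
    rw [hY, le_div_iff₀ hB0]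
    have e1 : L ^ (2 * E₁) * (16 * (L * ((x : ℝ) ^ 2 / L ^ (B + 2 * E₁ + 6)))) * L ^ B =
        (x : ℝ) ^ 2 * (16 / L ^ 5) := by
      rw [pow_add, pow_add]
      field_simp
    rw [e1]
    have e2 : 16 / L ^ 5 ≤ 1 := by
      rw [div_le_one (by positivity)]
      calc (16 : ℝ) ≤ L := hL
        _ = L ^ 1 := (pow_one L).symm
        _ ≤ L ^ 5 := hpow _ _ (by norm_num)
    calc (x : ℝ) ^ 2 * (16 / L ^ 5) ≤ (x : ℝ) ^ 2 * 1 := mul_le_mul_of_nonneg_left e2 hx2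
      _ = (x : ℝ) ^ 2 := mul_one _
  have hLY0 : 0 ≤ L * Y := by positivity
  have hb1 : U * (2 * L * Y) ≤ L ^ (2 * E₁) * (4 * (L * Y)) := by
    have h1 : (U : ℝ) ≤ 2 * L ^ (2 * E₁) := by
      have := hpow E₁ (2 * E₁) (by omega)
      linarith
    calc (U : ℝ) * (2 * L * Y) = U * (2 * (L * Y)) := by ring
      _ ≤ (2 * L ^ (2 * E₁)) * (2 * (L * Y)) := mul_le_mul_of_nonneg_right h1 (by positivity)
      _ = _ := by ring
  have hb2 : (U * U : ℝ) * (L * Y) ≤ L ^ (2 * E₁) * (4 * (L * Y)) := by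
    calc (U * U : ℝ) * (L * Y) ≤ (4 * L ^ (2 * E₁)) * (L * Y) := mul_le_mul_of_nonneg_right hUU hLY0
      _ = _ := by ring
  have hb3 : (x : ℝ) ^ 2 / L ^ (B + 1) ≤ (x : ℝ) ^ 2 / L ^ B / 16 := by
    rw [div_div]
    apply div_le_div_of_nonneg_left hx2 (by positivity)
    rw [pow_succ]
    exact mul_le_mul_of_nonneg_left hL hB0.le
  have hG : 0 ≤ (x : ℝ) ^ 2 / L ^ B := by positivity
  rw [hsplit]
  calc |T1 - T2 + T3| ≤ |T1 - T2| + |T3| := abs_add_le _ _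
    _ ≤ |T1| + |T2| + |T3| := by linarith [abs_sub T1 T2]
    _ ≤ (x : ℝ) ^ 2 / L ^ B := by linarith

end Pool.Agent.FI
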