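import Pool.Agent.helper95.FI.SpecA
import Pool.Agent.helper89.SK.TAM

set_option autoImplicit false

open Finset

namespace Pool.Agent.FI

private theorem TDW_range (R : ℕ) (w : ℤ × ℤ) (hw : w ∈ Bx R) (hodd : w.1 % 2 = 1) :
    nn w ∈ Ioc 0 (9 * R ^ 2) := by
  unfold Bx at hw
  rw [mem_product, mem_Icc, mem_Icc] at hw
  obtain ⟨⟨a1, a2⟩, a3, a4⟩ := hw
  have h1 : w.1 ^ 2 ≤ (R : ℤ) ^ 2 := by nlinarith
  have h2 : w.2 ^ 2 ≤ (R : ℤ) ^ 2 := by nlinarith
  have hne : N8 w ≠ 0 := by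
    intro h
    unfold N8 at h
    have h3 : Odd (w.1 ^ 2) := (Int.odd_iff.2 hodd).pow
    have h4 : Even (8 * w.2 ^ 2) := ⟨4 * w.2 ^ 2, by ring⟩
    have h5 := h3.sub_even h4
    rw [h] at h5
    exact absurd h5 (by decide)
  rw [mem_Ioc]
  unfold nn
  constructor
  · exact Int.natAbs_pos.2 hne
  · have h6 : |N8 w| ≤ 9 * (R : ℤ) ^ 2 := by
      unfold N8
      rw [abs_le]
      constructor
      · nlinarith [sq_nonneg w.1]
      · nlinarith [sq_nonneg w.2, sq_nonneg (R : ℤ)]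
    have h7 : ((N8 w).natAbs : ℤ) ≤ ((9 * R ^ 2 : ℕ) : ℤ) := by
      rw [Int.natCast_natAbs]
      push_cast
      exact h6
    exact_mod_cast h7

theorem TDW (hCN3 : CN3_stmt) : TDW_stmt := by
  obtain ⟨C, hC, h⟩ := hCN3
  refine ⟨C * 9 * 4 ^ 16, by positivity, fun R hR => ?_⟩
  have hRr : (1 : ℝ) ≤ R := by exact_mod_cast hR
  have hlR : 0 ≤ Real.log R := Real.log_nonneg hRr
  set S : Finset (ℤ × ℤ) := (Bx R).filter fun w => w.1 % 2 = 1 with hS
  have hmaps : ∀ w ∈ S, nn w ∈ Ioc 0 (9 * R ^ 2) := by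
    intro w hw
    rw [hS, mem_filter] at hw
    exact TDW_range R w hw.1 hw.2
  rw [← Finset.sum_fiberwise_of_maps_to hmaps]
  have hk : ∀ k ∈ Ioc 0 (9 * R ^ 2), ∑ w ∈ S with nn w = k, ((nn w).divisors.card : ℝ) ^ 2 ≤
      C * (1 + Real.log R) * (Pool.Agent.helper85.BVP.tau k) ^ 4 := by
    intro k hk
    rw [mem_Ioc] at hk
    have h1 : ∑ w ∈ S with nn w = k, ((nn w).divisors.card : ℝ) ^ 2 =
        (#(S.filter fun w => nn w = k) : ℝ) * (k.divisors.card : ℝ) ^ 2 := by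
      rw [← nsmul_eq_mul, ← Finset.sum_const]
      refine Finset.sum_congr rfl fun w hw => ?_
      rw [(mem_filter.1 hw).2]
    rw [h1]
    have h2 : S.filter (fun w => nn w = k) = {w ∈ Bx R | w.1 % 2 = 1 ∧ nn w = k} := by
      rw [hS, Finset.filter_filter]
    rw [h2]
    have h3 := h R k hR hk.1
    have h4 : Pool.Agent.helper85.BVP.tau k = (k.divisors.card : ℝ) := rfl
    rw [h4]
    calc (#{w ∈ Bx R | w.1 % 2 = 1 ∧ nn w = k} : ℝ) * (k.divisors.card : ℝ) ^ 2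
        ≤ (C * (1 + Real.log R) * (k.divisors.card : ℝ) ^ 2) * (k.divisors.card : ℝ) ^ 2 :=
          mul_le_mul_of_nonneg_right h3 (by positivity)
      _ = C * (1 + Real.log R) * (k.divisors.card : ℝ) ^ 4 := by ring
  refine (Finset.sum_le_sum hk).trans ?_
  rw [← Finset.mul_sum]
  have h5 := (Pool.Agent.SK.TAM 4 (9 * R ^ 2)).1
  have h6 : 1 + Real.log ((9 * R ^ 2 : ℕ) : ℝ) ≤ 4 * (1 + Real.log R) := by
    push_cast
    rw [Real.log_mul (by norm_num) (by positivity), Real.log_pow]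
    have h4 : Real.log 9 ≤ 3 := by
      rw [Real.log_le_iff_le_exp (by norm_num)]
      have h5 : (2.7182818283 : ℝ) < Real.exp 1 := Real.exp_one_gt_d9
      have h6 : Real.exp 3 = Real.exp 1 ^ 3 := by rw [← Real.exp_nat_mul]; norm_num
      rw [h6]
      have h7 : (2.7182818283 : ℝ) ^ 3 ≤ Real.exp 1 ^ 3 := pow_le_pow_left₀ (by norm_num) h5.le 3
      norm_num at h7 ⊢
      linarith
    push_cast
    linarith
  have h7 : 0 ≤ 1 + Real.log ((9 * R ^ 2 : ℕ) : ℝ) := by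
    have := Real.log_natCast_nonneg (9 * R ^ 2)
    linarith
  calc C * (1 + Real.log R) * ∑ k ∈ Ioc 0 (9 * R ^ 2), Pool.Agent.helper85.BVP.tau k ^ 4
      ≤ C * (1 + Real.log R) * (((9 * R ^ 2 : ℕ) : ℝ) *
          (1 + Real.log ((9 * R ^ 2 : ℕ) : ℝ)) ^ (2 ^ 4)) :=
        mul_le_mul_of_nonneg_left h5 (by positivity)
    _ ≤ C * (1 + Real.log R) * (((9 * R ^ 2 : ℕ) : ℝ) * (4 * (1 + Real.log R)) ^ (2 ^ 4)) := by
        refine mul_le_mul_of_nonneg_left ?_ (by positivity)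
        refine mul_le_mul_of_nonneg_left ?_ (by positivity)
        exact pow_le_pow_left₀ h7 h6 _
    _ = C * 9 * 4 ^ 16 * R ^ 2 * (1 + Real.log R) ^ 17 := by
        push_cast
        ring
    _ ≤ C * 9 * 4 ^ 16 * R ^ 2 * (1 + Real.log R) ^ 40 := by
        refine mul_le_mul_of_nonneg_left ?_ (by positivity)
        exact pow_le_pow_right₀ (by linarith) (by norm_num)

end Pool.Agent.FI
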